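import Pool.Agent.Helper25.PC.Approx

/-!
The pigeonhole principle for orders at finitely many places (Helper25, row PIC of MP_bd895b_L).
-/

namespace PCl

open Polynomial

variable {F k : Type*} [Field F] [Finite F] [Field k] [Algebra F k]

/-- **Pigeonhole**: a finite group of elements with orders at least `-a` which is larger than the
product of the `N A ^ (a A + b A)` contains a nonzero element with orders at least `b`. -/
theorem count (hfin : ∀ x : k, Transcendental F x → ∃ n, Rel F x n)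
    (o : ValuationSubring k → k → ℤ) (ho : ∀ A, A ≠ ⊤ → IsOrd A (o A))
    (T : Finset (ValuationSubring k)) (hT : ∀ A ∈ T, A ≠ ⊤) (W : AddSubgroup k) [Finite W]
    (a b : ValuationSubring k → ℤ) (hab : ∀ A ∈ T, 0 ≤ a A + b A)
    (hW : ∀ y ∈ W, y ≠ 0 → ∀ A ∈ T, -a A ≤ o A y)
    (hcard : ∏ A ∈ T, N A ^ (a A + b A).toNat < Nat.card W) :
    ∃ y ∈ W, y ≠ 0 ∧ ∀ A ∈ T, b A ≤ o A y := by
  classical
  have hdvr : ∀ A ∈ T, IsDiscreteValuationRing A := fun A hA => (isDVR hfin A (hT A hA)).1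
  choose s hs0 hs using fun A : T => (ho A (hT A A.2)).exists_eq (a A)
  choose c hc0 hc using fun A : T => (ho A (hT A A.2)).exists_eq (a A + b A)
  have hcA : ∀ A : T, c A ∈ (A : ValuationSubring k) := fun A =>
    ((ho A (hT A A.2)).nonneg _ (hc0 A)).1 (by rw [hc A]; exact hab A A.2)
  let cA : (A : T) → (A : ValuationSubring k) := fun A => ⟨c A, hcA A⟩
  have hcA0 : ∀ A : T, cA A ≠ 0 := fun A h => hc0 A (congrArg Subtype.val h)
  let I := (A : T) → ((A : ValuationSubring k) ⧸ Ideal.span {cA A})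
  have hfinI : ∀ A : T, Finite ((A : ValuationSubring k) ⧸ Ideal.span {cA A}) :=
    fun A => finite_quot hfin A (cA A) (hcA0 A)
  have hcardI : Nat.card I = ∏ A ∈ T, N A ^ (a A + b A).toNat := by
    rw [Nat.card_pi, ← Finset.prod_coe_sort T (fun A => N A ^ (a A + b A).toNat)]
    refine Finset.prod_congr rfl fun A _ => ?_
    have := hdvr A A.2
    rw [card_quot (ho A (hT A A.2)) (cA A) (hcA0 A), hc A]
  have hsy : ∀ (y : W) (A : T), s A * (y : k) ∈ (A : ValuationSubring k) := by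
    intro y A
    by_cases hy : (y : k) = 0
    · rw [hy, mul_zero]
      exact A.1.zero_mem
    · have h := ho A (hT A A.2)
      rw [← h.nonneg _ (mul_ne_zero (hs0 A) hy), h.mul _ _ (hs0 A) hy, hs A]
      have := hW y y.2 hy A A.2
      linarith
  let φ : W → I := fun y A => Ideal.Quotient.mk _ ⟨s A * (y : k), hsy y A⟩
  have hninj : ¬ Function.Injective φ := by
    intro hinj
    have := Nat.card_le_card_of_injective φ hinj
    rw [hcardI] at this
    omega
  rw [Function.not_injective_iff] at hninj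
  obtain ⟨y1, y2, h12, hne⟩ := hninj
  refine ⟨(y1 : k) - y2, W.sub_mem y1.2 y2.2, sub_ne_zero.2 fun h => hne (Subtype.ext h), ?_⟩
  intro A hA
  have h1 := congrFun h12 ⟨A, hA⟩
  simp only [φ] at h1
  rw [Ideal.Quotient.mk_eq_mk_iff_sub_mem, Ideal.mem_span_singleton] at h1
  obtain ⟨w, hw⟩ := h1
  have hw' : s ⟨A, hA⟩ * (y1 : k) - s ⟨A, hA⟩ * (y2 : k) = c ⟨A, hA⟩ * (w : k) :=
    congrArg Subtype.val hw
  have hy : (y1 : k) - y2 ≠ 0 := sub_ne_zero.2 fun h => hne (Subtype.ext h)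
  have h := ho A (hT A hA)
  have hsy0 : s ⟨A, hA⟩ * ((y1 : k) - y2) ≠ 0 := mul_ne_zero (hs0 _) hy
  have hdiv : s ⟨A, hA⟩ * ((y1 : k) - y2) / c ⟨A, hA⟩ ∈ A := by
    rw [mul_sub, hw', mul_div_cancel_left₀ _ (hc0 _)]
    exact w.2
  have h2 := (h.le_iff (hc0 ⟨A, hA⟩) hsy0).2 hdiv
  rw [h.mul _ _ (hs0 _) hy, hs ⟨A, hA⟩, hc ⟨A, hA⟩] at h2
  simp only at h2
  linarith

end PCl
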