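import Pool.Agent.Helper25.PC.Place

/-!
A global function field is finite over `F(x)` for every transcendental `x` (Helper25, row PIC of
MP_bd895b_L).
-/

namespace PCl

open IntermediateField

variable {F k : Type*} [Field F] [Field k] [Algebra F k]

theorem finiteDimensional_of {t y : k} (ht : Transcendental F t) [FiniteDimensional F⟮t⟯ k]
    (hy : Transcendental F y) : FiniteDimensional F⟮y⟯ k :=
  have htalg : IsAlgebraic F⟮y⟯ t :=
    isAlgebraic_adjoin_iff.mpr (.adjoin_singleton ht hy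
      (isAlgebraic_adjoin_iff.mp (Algebra.IsAlgebraic.isAlgebraic y)))
  let Fyx := restrictScalars F F⟮y⟯⟮t⟯
  let Fxy := restrictScalars F F⟮t⟯⟮y⟯
  let : Algebra F⟮y⟯ Fyx := F⟮y⟯⟮t⟯.algebra
  let : Module F⟮y⟯ Fyx := Algebra.toModule
  let : SMul F⟮y⟯ Fyx := Algebra.toSMul
  let : Algebra F⟮t⟯ Fxy := F⟮t⟯⟮y⟯.algebra
  let : Module F⟮t⟯ Fxy := Algebra.toModule
  let : SMul F⟮t⟯ Fxy := Algebra.toSMul
  have : FiniteDimensional F⟮y⟯ Fyx :=
    adjoin.finiteDimensional (isAlgebraic_iff_isIntegral.mp htalg)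
  have : FiniteDimensional Fyx k := by
    unfold Fyx
    rw [adjoin_simple_comm]
    have : IsScalarTower F⟮t⟯ Fxy k := isScalarTower_mid' F⟮t⟯⟮y⟯
    exact .right F⟮t⟯ Fxy k
  have : IsScalarTower F⟮y⟯ Fyx k := isScalarTower_mid' F⟮y⟯⟮t⟯
  .trans F⟮y⟯ Fyx k

theorem hfin_of {t : k} (ht : Transcendental F t) (hf : Module.Finite F⟮t⟯ k) (x : k)
    (hx : Transcendental F x) : ∃ n, Rel F x n ∧ Ind F x n := by
  have := finiteDimensional_of ht hx
  exact ⟨_, rel_of x, ind_of x hx⟩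

end PCl
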