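import Pool.Agent.Helper25.PC.Count
import Pool.Agent.Helper61.PC.Lat

/-!
The product formula for a global function field (Helper25, row PIC of MP_bd895b_L).
-/

namespace PCl

open Polynomial

variable {F k : Type*} [Field F] [Finite F] [Field k] [Algebra F k]

theorem le_of_pow_le {a b K : ℕ} (h : ∀ r : ℕ, a ^ (r + 1) ≤ K * b ^ r) : a ≤ b := by
  by_contra hab
  push Not at hab
  rcases Nat.eq_zero_or_pos b with hb | hb
  · have := h 1
    rw [hb] at this
    simp at this
    omega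
  · have h1 : (1 : ℝ) < (a : ℝ) / b := by
      rw [lt_div_iff₀ (by exact_mod_cast hb), one_mul]
      exact_mod_cast hab
    obtain ⟨r, hr⟩ := pow_unbounded_of_one_lt (K : ℝ) h1
    have h2 : (a : ℝ) ^ (r + 1) ≤ K * (b : ℝ) ^ r := by exact_mod_cast h r
    rw [div_pow, lt_div_iff₀ (by positivity)] at hr
    have h3 : (a : ℝ) ^ r ≤ (a : ℝ) ^ (r + 1) := by
      apply pow_le_pow_right₀ _ (Nat.le_succ r)
      have : 1 ≤ a := by omega
      exact_mod_cast this
    linarith

/-- Zeros: the bound over a finite set of places. -/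
theorem zeros_le' (hfin : ∀ x : k, Transcendental F x → ∃ n, Rel F x n)
    (o : ValuationSubring k → k → ℤ) (ho : ∀ A, A ≠ ⊤ → IsOrd A (o A))
    (T : Finset (ValuationSubring k)) (hT : ∀ A ∈ T, A ≠ ⊤) {z : k} (hz0 : z ≠ 0)
    (htr : Transcendental F z) {n : ℕ} (hR : Rel F z n) :
    ∏ A ∈ T, N A ^ (o A z).toNat ≤ Nat.card F ^ n := by
  classical
  have h1 := zeros_le hfin o ho (T.filter (fun A => z ∈ A))
    (fun A hA => hT A (Finset.mem_filter.1 hA).1) hz0 htr
    (fun A hA => (Finset.mem_filter.1 hA).2) hR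
  rw [Finset.prod_filter] at h1
  refine le_trans (le_of_eq ?_) h1
  refine Finset.prod_congr rfl fun A hA => ?_
  by_cases hzA : z ∈ A
  · rw [if_pos hzA]
  · rw [if_neg hzA]
    have : ¬ 0 ≤ o A z := fun h => hzA (((ho A (hT A hA)).nonneg z hz0).1 h)
    rw [Int.toNat_of_nonpos (by omega), pow_zero]

/-- Poles: the lower bound. -/
theorem le_poles (hpl : ∀ y : k, Transcendental F y → ∃ A : ValuationSubring k, A ≠ ⊤ ∧
      y⁻¹ ∈ A.nonunits)
    (hfin : ∀ x : k, Transcendental F x → ∃ n, Rel F x n ∧ Ind F x n)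
    (o : ValuationSubring k → k → ℤ) (ho : ∀ A, A ≠ ⊤ → IsOrd A (o A))
    (T : Finset (ValuationSubring k)) (hT : ∀ A ∈ T, A ≠ ⊤) {z : k}
    (htr : Transcendental F z) (hsup : ∀ A, A ≠ ⊤ → o A z ≠ 0 → A ∈ T) {n : ℕ}
    (hI : Ind F z n) :
    Nat.card F ^ n ≤ ∏ A ∈ T, N A ^ (-(o A z)).toNat := by
  classical
  have hfin' : ∀ x : k, Transcendental F x → ∃ n, Rel F x n := fun x hx =>
    (hfin x hx).imp fun _ h => h.1
  have hz0 : z ≠ 0 := by
    rintro rfl
    exact htr isAlgebraic_zero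
  obtain ⟨A0, hA0, -⟩ := hpl z htr
  obtain ⟨S, C, hS, hC, hW⟩ := lattice' (finite_above hfin') o ho htr hI
  set T2 : Finset (ValuationSubring k) := insert A0 (T ∪ S) with hT2
  have hT2t : ∀ A ∈ T2, A ≠ ⊤ := by
    intro A hA
    rw [hT2, Finset.mem_insert, Finset.mem_union] at hA
    rcases hA with rfl | hA | hA
    · exact hA0
    · exact hT A hA
    · exact hS A hA
  let b : ValuationSubring k → ℤ := fun A => if A = A0 then 1 else 0
  have hb0 : ∀ A, 0 ≤ b A := fun A => by
    simp only [b]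
    split_ifs <;> norm_num
  have hkey : ∀ r : ℕ, Nat.card F ^ (n * (r + 1)) ≤
      ∏ A ∈ T2, N A ^ (((C A : ℤ) + r * max (-(o A z)) 0) + b A).toNat := by
    intro r
    by_contra hlt
    push Not at hlt
    obtain ⟨W, hWf, hWc, hWo⟩ := hW r
    rw [← hWc] at hlt
    obtain ⟨y, hyW, hy0, hy⟩ := count hfin' o ho T2 hT2t W
      (fun A => (C A : ℤ) + r * max (-(o A z)) 0) b
      (fun A _ => by
        have := hb0 A
        positivity)
      (fun y hyW hy0 A hA => by
        have := hWo y hyW hy0 A (hT2t A hA)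
        linarith) hlt
    have hall : ∀ A, A ≠ ⊤ → 0 ≤ o A y := by
      intro A hA
      by_cases hAT : A ∈ T2
      · exact le_trans (hb0 A) (hy A hAT)
      · rw [hT2, Finset.mem_insert, Finset.mem_union] at hAT
        push Not at hAT
        have h1 := hWo y hyW hy0 A hA
        have h2 : o A z = 0 := by
          by_contra h
          exact hAT.2.1 (hsup A hA h)
        rw [hC A hAT.2.2, h2] at h1
        simpa using h1
    have hA0y : 1 ≤ o A0 y := by
      have := hy A0 (Finset.mem_insert_self _ _)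
      simpa [b] using this
    have hytr : Transcendental F y :=
      transc A0 (((ho A0 hA0).pos_iff hy0).1 (by omega)) hy0
    obtain ⟨B, hB, hBy⟩ := hpl y hytr
    have h3 := ((ho B hB).pos_iff (inv_ne_zero hy0)).2 hBy
    rw [(ho B hB).inv hy0] at h3
    have := hall B hB
    omega
  -- the product over T2 splits
  have hsplit : ∀ r : ℕ, ∏ A ∈ T2, N A ^ (((C A : ℤ) + r * max (-(o A z)) 0) + b A).toNat
      = (∏ A ∈ T2, N A ^ (C A + (b A).toNat)) * (∏ A ∈ T2, N A ^ (-(o A z)).toNat) ^ r := by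
    intro r
    rw [← Finset.prod_pow, ← Finset.prod_mul_distrib]
    refine Finset.prod_congr rfl fun A _ => ?_
    rw [← pow_mul, ← pow_add]
    congr 1
    have h1 := hb0 A
    have h2 : max (-(o A z)) 0 = ((-(o A z)).toNat : ℤ) := (Int.ofNat_toNat _).symm
    rw [h2]
    have h3 : ((b A).toNat : ℤ) = b A := Int.toNat_of_nonneg h1
    have h4 : ((C A : ℤ) + r * ((-(o A z)).toNat : ℤ)) + b A
        = ((C A + (b A).toNat + (-(o A z)).toNat * r : ℕ) : ℤ) := by
      push_cast
      rw [h3]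
      ring
    rw [h4, Int.toNat_natCast]
  have hTT2 : ∏ A ∈ T2, N A ^ (-(o A z)).toNat = ∏ A ∈ T, N A ^ (-(o A z)).toNat := by
    symm
    apply Finset.prod_subset
    · intro A hA
      rw [hT2, Finset.mem_insert, Finset.mem_union]
      exact Or.inr (Or.inl hA)
    · intro A hA hAT
      have h2 : o A z = 0 := by
        by_contra h
        exact hAT (hsup A (hT2t A hA) h)
      rw [h2]
      simp
  rw [← hTT2]
  apply le_of_pow_le (K := ∏ A ∈ T2, N A ^ (C A + (b A).toNat))
  intro r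
  have := hkey r
  rw [hsplit r] at this
  rw [← pow_mul]
  exact this

/-- **Zeros and poles**: the product over the poles and over the zeros is `|F| ^ n`. -/
theorem poles_eq (hpl : ∀ y : k, Transcendental F y → ∃ A : ValuationSubring k, A ≠ ⊤ ∧
      y⁻¹ ∈ A.nonunits)
    (hfin : ∀ x : k, Transcendental F x → ∃ n, Rel F x n ∧ Ind F x n)
    (o : ValuationSubring k → k → ℤ) (ho : ∀ A, A ≠ ⊤ → IsOrd A (o A))
    (T : Finset (ValuationSubring k)) (hT : ∀ A ∈ T, A ≠ ⊤) {z : k}
    (htr : Transcendental F z) (hsup : ∀ A, A ≠ ⊤ → o A z ≠ 0 → A ∈ T) {n : ℕ}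
    (hR : Rel F z n) (hI : Ind F z n) :
    ∏ A ∈ T, N A ^ (-(o A z)).toNat = Nat.card F ^ n ∧
      ∏ A ∈ T, N A ^ (o A z).toNat = Nat.card F ^ n := by
  have hfin' : ∀ x : k, Transcendental F x → ∃ n, Rel F x n := fun x hx =>
    (hfin x hx).imp fun _ h => h.1
  have hz0 : z ≠ 0 := by
    rintro rfl
    exact htr isAlgebraic_zero
  have htr' : Transcendental F z⁻¹ := by
    intro h
    have := h.inv
    rw [inv_inv] at this
    exact htr this
  obtain ⟨n', hR', hI'⟩ := hfin z⁻¹ htr'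
  have ho' : ∀ A ∈ T, o A z⁻¹ = -(o A z) := fun A hA => (ho A (hT A hA)).inv hz0
  have h1 := zeros_le' hfin' o ho T hT hz0 htr hR
  have h2 := le_poles hpl hfin o ho T hT htr hsup hI
  have h3 := zeros_le' hfin' o ho T hT (inv_ne_zero hz0) htr' hR'
  have h4 := le_poles hpl hfin o ho T hT htr' (fun A hA h => hsup A hA (by
    rw [(ho A hA).inv hz0] at h
    omega)) hI'
  rw [Finset.prod_congr rfl fun A hA => by rw [ho' A hA]] at h3
  rw [Finset.prod_congr rfl fun A hA => by rw [ho' A hA, neg_neg]] at h4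
  constructor
  · exact le_antisymm (h3.trans (h4.trans h1)) h2
  · exact le_antisymm h1 (h2.trans (h3.trans h4))

/-- **The product formula.** -/
theorem product' (hpl : ∀ y : k, Transcendental F y → ∃ A : ValuationSubring k, A ≠ ⊤ ∧
      y⁻¹ ∈ A.nonunits)
    (hfin : ∀ x : k, Transcendental F x → ∃ n, Rel F x n ∧ Ind F x n)
    (o : ValuationSubring k → k → ℤ) (ho : ∀ A, A ≠ ⊤ → IsOrd A (o A))
    {z : k} (hz : z ≠ 0) (T : Finset (ValuationSubring k)) (hT : ∀ A ∈ T, A ≠ ⊤)
    (hsup : ∀ A, A ≠ ⊤ → o A z ≠ 0 → A ∈ T) :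
    ∏ A ∈ T, (N A : ℚ) ^ (o A z) = 1 := by
  classical
  have hfin' : ∀ x : k, Transcendental F x → ∃ n, Rel F x n := fun x hx =>
    (hfin x hx).imp fun _ h => h.1
  by_cases htr : Transcendental F z
  · obtain ⟨n, hR, hI⟩ := hfin z htr
    obtain ⟨h1, h2⟩ := poles_eq hpl hfin o ho T hT htr hsup hR hI
    have hN : ∀ A ∈ T, (N A : ℚ) ≠ 0 := fun A hA => by
      have := two_le_N hfin' A (hT A hA)
      positivity
    have h3 : ∏ A ∈ T, (N A : ℚ) ^ (o A z)
        = (∏ A ∈ T, (N A : ℚ) ^ (o A z).toNat) / ∏ A ∈ T, (N A : ℚ) ^ (-(o A z)).toNat := by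
      rw [← Finset.prod_div_distrib]
      refine Finset.prod_congr rfl fun A hA => ?_
      rw [← zpow_natCast, ← zpow_natCast, ← zpow_sub₀ (hN A hA)]
      congr 1
      omega
    have h1' : ∏ A ∈ T, (N A : ℚ) ^ (-(o A z)).toNat = (Nat.card F : ℚ) ^ n := by
      exact_mod_cast h1
    have h2' : ∏ A ∈ T, (N A : ℚ) ^ (o A z).toNat = (Nat.card F : ℚ) ^ n := by
      exact_mod_cast h2
    rw [h3, h1', h2']
    apply div_self
    have : (Nat.card F : ℚ) ≠ 0 := by
      exact_mod_cast (Nat.card_pos (α := F)).ne'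
    positivity
  · apply Finset.prod_eq_one
    intro A hA
    have h0 : o A z = 0 := by
      by_contra h
      apply htr
      rcases lt_or_gt_of_ne h with h | h
      · have h1 : z⁻¹ ∈ A.nonunits := by
          rw [← (ho A (hT A hA)).pos_iff (inv_ne_zero hz), (ho A (hT A hA)).inv hz]
          omega
        have h2 := transc (F := F) A h1 (inv_ne_zero hz)
        intro h3
        exact h2 h3.inv
      · exact transc (F := F) A (((ho A (hT A hA)).pos_iff hz).1 h) hz
    rw [h0, zpow_zero]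

section Final

omit [Finite F] in
/-- Every transcendental element has a pole. -/
theorem exists_place {y : k} (htr : Transcendental F y) :
    ∃ A : ValuationSubring k, A ≠ ⊤ ∧ y⁻¹ ∈ A.nonunits := by
  have hy0 : y ≠ 0 := by
    rintro rfl
    exact htr isAlgebraic_zero
  set R : Subring k := (Algebra.adjoin F {y⁻¹}).toSubring with hR
  have hyR : y⁻¹ ∈ R := Algebra.subset_adjoin rfl
  have hI : Ideal.span {(⟨y⁻¹, hyR⟩ : R)} ≠ ⊤ := by
    rw [Ne, Ideal.span_singleton_eq_top, isUnit_iff_exists_inv]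
    rintro ⟨⟨w, hw⟩, hw1⟩
    have h1 : y⁻¹ * w = 1 := congrArg Subtype.val hw1
    have h2 : w = y := by
      field_simp at h1
      exact h1
    have h3 : w ∈ Algebra.adjoin F {y⁻¹} := hw
    rw [Algebra.adjoin_singleton_eq_range_aeval] at h3
    obtain ⟨p, hp⟩ := h3
    have h4 : aeval y⁻¹ (X * p - 1 : F[X]) = 0 := by
      rw [map_sub, map_mul, aeval_X, map_one]
      have : aeval y⁻¹ p = w := hp
      rw [this, h2, inv_mul_cancel₀ hy0, sub_self]
    have h5 : IsAlgebraic F y⁻¹ := by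
      refine ⟨X * p - 1, ?_, h4⟩
      intro h
      have := congrArg (fun q : F[X] => q.coeff 0) h
      simp at this
    have h6 := h5.inv
    rw [inv_inv] at h6
    exact htr h6
  obtain ⟨B, -, hB⟩ := Ideal.image_subset_nonunits_valuationSubring _ hI
  have hyB : y⁻¹ ∈ B.nonunits := hB ⟨⟨y⁻¹, hyR⟩, Ideal.mem_span_singleton_self _, rfl⟩
  refine ⟨B, ?_, hyB⟩
  rintro rfl
  rw [ValuationSubring.mem_nonunits_iff_or] at hyB
  rcases hyB with h | h
  · exact inv_ne_zero hy0 h
  · exact h trivial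

/-- **The product formula.** -/
theorem product (hfin : ∀ x : k, Transcendental F x → ∃ n, Rel F x n ∧ Ind F x n)
    (o : ValuationSubring k → k → ℤ) (ho : ∀ A, A ≠ ⊤ → IsOrd A (o A))
    {z : k} (hz : z ≠ 0) (T : Finset (ValuationSubring k)) (hT : ∀ A ∈ T, A ≠ ⊤)
    (hsup : ∀ A, A ≠ ⊤ → o A z ≠ 0 → A ∈ T) :
    ∏ A ∈ T, (N A : ℚ) ^ (o A z) = 1 :=
  product' (fun _ h => exists_place h) hfin o ho hz T hT hsup

end Final

end PCl
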