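import Pool.Agent.Helper72.ZC.Defs
import Pool.Agent.Helper25.PC.Count
import Pool.Agent.Helper25.PC.Fin
import Pool.Agent.Helper25.PC.Product
import Pool.Agent.Helper33.ZC.Main

/-!
Row PIC of MP_bd895b_L: the translation between the order functions of `PCl` and the places of
`ZC` (Helper25).
-/

set_option autoImplicit false

namespace ZC

universe u

open PCl

variable {F k : Type u} [Field F] [Finite F] [Field k] [Algebra F k]

omit [Finite F] in
theorem IsCurveField.hfin (hk : IsCurveField F k) (x : k) (hx : Transcendental F x) :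
    ∃ n, Rel F x n ∧ Ind F x n := by
  obtain ⟨t, ht, hf⟩ := hk
  exact hfin_of ht hf x hx

omit [Finite F] in
theorem IsCurveField.hrel (hk : IsCurveField F k) (x : k) (hx : Transcendental F x) :
    ∃ n, Rel F x n := by
  obtain ⟨n, hn, -⟩ := hk.hfin x hx
  exact ⟨n, hn⟩

theorem Place.isDVR (hk : IsCurveField F k) (v : Place F k) : IsDiscreteValuationRing v.A :=
  (PCl.isDVR hk.hrel v.A v.ne_top).1

theorem Place.finite_res (hk : IsCurveField F k) (v : Place F k) : Finite v.res :=
  (PCl.isDVR hk.hrel v.A v.ne_top).2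

theorem Place.deg_pos (hk : IsCurveField F k) (v : Place F k) : 0 < v.deg := by
  have := v.finite_res hk
  have : Module.Finite F v.res := Module.Finite.of_finite
  exact Module.finrank_pos

theorem Place.card_res (hk : IsCurveField F k) (v : Place F k) :
    N v.A = Nat.card F ^ v.deg := by
  have := v.finite_res hk
  have : Module.Finite F v.res := Module.Finite.of_finite
  exact Module.natCard_eq_pow_finrank

/-- Units have order zero. -/
theorem ord_eq_of_val {A : ValuationSubring k} {o : k → ℤ} (h : IsOrd A o) {g : k} (hg : g ≠ 0)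
    {p : A} (hp : Irreducible p) {m : ℤ} (hm : A.valuation g = A.valuation (p : k) ^ m) :
    o g = m := by
  have hp0 : (p : k) ≠ 0 := fun h => hp.ne_zero (Subtype.ext h)
  have h1 : A.valuation (g / (p : k) ^ m) = 1 := by
    rw [map_div₀, map_zpow₀, hm]
    exact div_self (zpow_ne_zero _ ((Valuation.ne_zero_iff _).2 hp0))
  have hne : g / (p : k) ^ m ≠ 0 := div_ne_zero hg (zpow_ne_zero _ hp0)
  have h2 : g / (p : k) ^ m ∈ A := (A.valuation_le_one_iff _).1 h1.le
  have h3 : (g / (p : k) ^ m)⁻¹ ∈ A := by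
    rw [← A.valuation_le_one_iff, map_inv₀, h1, inv_one]
  have h4 := (h.nonneg _ hne).2 h2
  have h5 := (h.nonneg _ (inv_ne_zero hne)).2 h3
  rw [h.inv hne] at h5
  rw [h.div hg (zpow_ne_zero _ hp0), h.zpow hp0, h.irreducible hp] at h4 h5
  linarith

theorem val_of_ord {A : ValuationSubring k} {o : k → ℤ} (h : IsOrd A o) {g : k} (hg : g ≠ 0)
    {p : A} (hp : Irreducible p) : A.valuation g = A.valuation (p : k) ^ (o g) := by
  have hp0 : (p : k) ≠ 0 := fun h => hp.ne_zero (Subtype.ext h)
  have hne : g / (p : k) ^ (o g) ≠ 0 := div_ne_zero hg (zpow_ne_zero _ hp0)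
  have h0 : o (g / (p : k) ^ (o g)) = 0 := by
    rw [h.div hg (zpow_ne_zero _ hp0), h.zpow hp0, h.irreducible hp]
    ring
  have h1 : g / (p : k) ^ (o g) ∈ A := (h.nonneg _ hne).1 h0.ge
  have h2 : (g / (p : k) ^ (o g))⁻¹ ∈ A := by
    rw [← h.nonneg _ (inv_ne_zero hne), h.inv hne, h0, neg_zero]
  have h3 := (A.valuation_le_one_iff _).2 h1
  have h4 := (A.valuation_le_one_iff _).2 h2
  have hv0 : A.valuation (g / (p : k) ^ (o g)) ≠ 0 := (Valuation.ne_zero_iff _).2 hne
  rw [map_inv₀, inv_le_one₀ (zero_lt_iff.2 hv0)] at h4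
  have h5 := le_antisymm h3 h4
  rw [map_div₀, map_zpow₀, div_eq_one_iff_eq
    (zpow_ne_zero _ ((Valuation.ne_zero_iff _).2 hp0))] at h5
  exact h5

omit [Finite F] in
/-- The normalised valuation of a place is an order function. -/
theorem Place.ord_eq_of_isOrd (v : Place F k) {o : k → ℤ} (h : IsOrd v.A o)
    (hdvr : IsDiscreteValuationRing v.A) {g : k} (hg : g ≠ 0) : v.ord g = o g := by
  classical
  obtain ⟨p, hp⟩ := IsDiscreteValuationRing.exists_irreducible v.A
  have hex : ∃ m : ℤ, ∃ π : v.A, Irreducible π ∧ v.A.valuation g = v.A.valuation (π : k) ^ m :=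
    ⟨o g, p, hp, val_of_ord h hg hp⟩
  have h1 : v.ord g = hex.choose := by
    unfold Place.ord
    rw [dif_pos hex]
  obtain ⟨π, hπ, hm⟩ := hex.choose_spec
  rw [h1]
  exact (ord_eq_of_val h hg hπ hm).symm

theorem Place.isOrd (hk : IsCurveField F k) (v : Place F k) : IsOrd v.A v.ord := by
  have hdvr := v.isDVR hk
  obtain ⟨o, ho⟩ := exists_isOrd v.A
  refine ⟨fun x y hx hy => ?_, fun x hx => ?_, ?_⟩
  · rw [v.ord_eq_of_isOrd ho hdvr hx, v.ord_eq_of_isOrd ho hdvr hy, v.ord_eq_of_isOrd ho hdvr (mul_ne_zero hx hy),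
      ho.mul x y hx hy]
  · rw [v.ord_eq_of_isOrd ho hdvr hx]
    exact ho.nonneg x hx
  · obtain ⟨x, hx, hx1⟩ := ho.surj
    exact ⟨x, hx, by rw [v.ord_eq_of_isOrd ho hdvr hx, hx1]⟩

/-- The order functions of all places, as a family indexed by the valuation rings. -/
noncomputable def ordFam (F : Type u) {k : Type u} [Field F] [Finite F] [Field k] [Algebra F k]
    (A : ValuationSubring k) : k → ℤ :=
  open Classical in
  if h : A ≠ ⊤ then (⟨A, h, F_mem A⟩ : Place F k).ord else 0

theorem ordFam_place (v : Place F k) : ordFam F v.A = v.ord := by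
  unfold ordFam
  rw [dif_pos v.ne_top]

theorem ordFam_isOrd (hk : IsCurveField F k) (A : ValuationSubring k) (hA : A ≠ ⊤) :
    IsOrd A (ordFam F A) :=
  (ordFam_place (⟨A, hA, F_mem A⟩ : Place F k)) ▸ Place.isOrd hk (⟨A, hA, F_mem A⟩ : Place F k)

/-- **Row PIC**: two places of a global function field are proportional in the divisor class
group up to torsion. -/
theorem pic (hk : IsCurveField F k) (v w : Place F k) (hvw : v ≠ w) :
    ∃ (h : ℕ) (f : k), 0 < h ∧ f ≠ 0 ∧ v.ord f = h * w.deg ∧ w.ord f = -(h * v.deg) ∧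
      ∀ u, u ≠ v → u ≠ w → u.ord f = 0 := by
  obtain ⟨f, m, hf, hm, hv, hw, hu⟩ := two_places' hk.hfin (ordFam F) (ordFam_isOrd hk)
    (fun z hz T hT hsup => product hk.hfin (ordFam F) (ordFam_isOrd hk) hz T hT hsup)
    v.A w.A v.ne_top w.ne_top (fun h => hvw (Place.ext_A h)) v.deg w.deg
    (v.card_res hk) (w.card_res hk)
  rw [ordFam_place] at hv hw
  refine ⟨m, f, hm, hf, hv, hw, fun u huv huw => ?_⟩
  have := hu u.A u.ne_top (fun h => huv (Place.ext_A h)) (fun h => huw (Place.ext_A h))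
  rwa [ordFam_place] at this

end ZC
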