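import Pool.Agent.Helper25.PC.Ord

/-!
Weak approximation for discrete valuation rings of a field, and the bound for the zeros of an
element (Helper25, row PIC of MP_bd895b_L).
-/

namespace PCl

open Polynomial

section Abs

variable {k : Type*} [Field k]

open Classical in
/-- The absolute value attached to an order function. -/
noncomputable def absOf {A : ValuationSubring k} {o : k → ℤ} (h : IsOrd A o) :
    AbsoluteValue k ℝ where
  toFun x := if x = 0 then 0 else (2 : ℝ) ^ (-o x)
  map_mul' x y := by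
    by_cases hx : x = 0
    · simp [hx]
    by_cases hy : y = 0
    · simp [hy]
    simp only [mul_eq_zero, hx, hy, or_self, if_false]
    rw [h.mul x y hx hy, ← zpow_add₀ (two_ne_zero)]
    congr 1
    ring
  nonneg' x := by
    split_ifs
    · exact le_rfl
    · positivity
  eq_zero' x := by
    constructor
    · intro hx
      by_contra h0
      simp only [h0, if_false] at hx
      have : (0 : ℝ) < (2 : ℝ) ^ (-o x) := by positivity
      exact absurd hx (ne_of_gt this)
    · rintro rfl
      simp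
  add_le' x y := by
    by_cases hx : x = 0
    · simp [hx]
    by_cases hy : y = 0
    · simp [hy]
    by_cases hxy : x + y = 0
    · simp only [hxy, hx, hy, if_true, if_false]
      positivity
    simp only [hx, hy, hxy, if_false]
    have h1 := h.min_le_add hx hy hxy
    have hx2 : (0 : ℝ) < (2 : ℝ) ^ (-o x) := by positivity
    have hy2 : (0 : ℝ) < (2 : ℝ) ^ (-o y) := by positivity
    rcases min_le_iff.1 h1 with h2 | h2
    · have : (2 : ℝ) ^ (-o (x + y)) ≤ (2 : ℝ) ^ (-o x) :=
        zpow_le_zpow_right₀ one_le_two (by linarith)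
      linarith
    · have : (2 : ℝ) ^ (-o (x + y)) ≤ (2 : ℝ) ^ (-o y) :=
        zpow_le_zpow_right₀ one_le_two (by linarith)
      linarith

theorem absOf_apply {A : ValuationSubring k} {o : k → ℤ} (h : IsOrd A o) {x : k} (hx : x ≠ 0) :
    absOf h x = (2 : ℝ) ^ (-o x) := by
  simp [absOf, hx]

theorem absOf_le_one_iff {A : ValuationSubring k} {o : k → ℤ} (h : IsOrd A o) (x : k) :
    absOf h x ≤ 1 ↔ x ∈ A := by
  by_cases hx : x = 0
  · rw [hx]
    simp [A.zero_mem]
  rw [absOf_apply h hx, ← h.nonneg x hx]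
  rw [show (1 : ℝ) = (2 : ℝ) ^ (0 : ℤ) by simp, zpow_le_zpow_iff_right₀ one_lt_two]
  omega

theorem absOf_nontrivial {A : ValuationSubring k} {o : k → ℤ} (h : IsOrd A o) :
    (absOf h).IsNontrivial := by
  obtain ⟨x, hx, hx1⟩ := h.surj
  refine ⟨x, hx, ?_⟩
  rw [absOf_apply h hx, hx1]
  norm_num

/-- **Weak approximation.** -/
theorem approx (o : ValuationSubring k → k → ℤ) (T : Finset (ValuationSubring k))
    (hT : ∀ A ∈ T, IsOrd A (o A)) (y z : ValuationSubring k → k) (hz : ∀ A ∈ T, z A ≠ 0) :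
    ∃ x : k, ∀ A ∈ T, (x - y A) / z A ∈ A := by
  classical
  let v : T → AbsoluteValue k ℝ := fun A => absOf (hT A A.2)
  have hd := AbsoluteValue.denseRange_algebraMap_pi (v := v)
    (fun A => absOf_nontrivial (hT A A.2)) (by
      intro A B hAB hE
      apply hAB
      apply Subtype.ext
      apply SetLike.ext
      intro x
      have h1 := hE x 1
      rw [map_one, map_one] at h1
      rw [← absOf_le_one_iff (hT A A.2), ← absOf_le_one_iff (hT B B.2)]
      exact h1)
  -- a uniform radius
  obtain ⟨r, hr0, hr⟩ : ∃ r : ℝ, 0 < r ∧ ∀ A : T, r ≤ v A (z A) := by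
    rcases isEmpty_or_nonempty T with hE | hE
    · exact ⟨1, one_pos, fun A => hE.elim A⟩
    · obtain ⟨A0, hA0⟩ := Finite.exists_min (fun A : T => v A (z A))
      exact ⟨v A0 (z A0), (v A0).pos (hz A0 A0.2), hA0⟩
  obtain ⟨x, hx⟩ := (Metric.denseRange_iff.1 hd)
    (fun A => (WithAbs.equiv (v A)).symm (y A)) r hr0
  refine ⟨x, fun A hA => ?_⟩
  have h1 := (dist_pi_lt_iff hr0).1 hx ⟨A, hA⟩
  rw [← absOf_le_one_iff (hT A hA), map_div₀, div_le_one ((absOf (hT A hA)).pos (hz A hA))]
  refine le_trans (le_of_lt ?_) (hr ⟨A, hA⟩)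
  rw [dist_comm, dist_eq_norm] at h1
  exact h1

end Abs

/-- The norm of a place: the number of elements of the residue field. -/
noncomputable def N {k : Type*} [Field k] (A : ValuationSubring k) : ℕ :=
  Nat.card (IsLocalRing.ResidueField A)

section Card

variable {k : Type*} [Field k]

/-- A uniformiser has order one. -/
theorem IsOrd.irreducible {A : ValuationSubring k} {o : k → ℤ} (h : IsOrd A o) {p : A}
    (hp : Irreducible p) : o (p : k) = 1 := by
  have hp0 : (p : k) ≠ 0 := fun h => hp.ne_zero (Subtype.ext h)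
  have hpn : (p : k) ∈ A.nonunits := by
    rw [A.mem_nonunits_iff]
    refine lt_of_le_of_ne ((A.valuation_le_one_iff _).2 p.2) ?_
    intro h
    exact hp.not_isUnit ((A.valuation_eq_one_iff p).2 h)
  have h1 : 0 < o (p : k) := (h.pos_iff hp0).2 hpn
  obtain ⟨x, hx, hx1⟩ := h.surj
  have hxA : x ∈ A := (h.nonneg x hx).1 (by omega)
  have hxn : x⁻¹ ∉ A := by
    rw [← h.nonneg _ (inv_ne_zero hx), h.inv hx]
    omega
  by_contra hne
  have h2 : 2 ≤ o (p : k) := by omega
  have h3 : (p : k) / x ∈ A := (h.le_iff hx hp0).1 (by omega)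
  have h4 : p = ⟨x, hxA⟩ * ⟨(p : k) / x, h3⟩ := by
    apply Subtype.ext
    change (p : k) = x * ((p : k) / x)
    field_simp
  rcases hp.isUnit_or_isUnit h4 with hu | hu
  · obtain ⟨u, hu⟩ := hu
    apply hxn
    have h5 : ((u : A) : k) = x := congrArg Subtype.val hu
    have h6 : ((u : A) : k) * ((↑(u⁻¹) : A) : k) = 1 := by
      exact congrArg Subtype.val (u.mul_inv)
    have h7 : x⁻¹ = ((↑(u⁻¹) : A) : k) := by
      rw [h5] at h6
      exact (eq_inv_of_mul_eq_one_right h6).symm
    rw [h7]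
    exact SetLike.coe_mem _
  · obtain ⟨u, hu⟩ := hu
    have h5 : ((u : A) : k) = (p : k) / x := congrArg Subtype.val hu
    have h6 : ((u : A) : k) * ((↑(u⁻¹) : A) : k) = 1 := by
      exact congrArg Subtype.val (u.mul_inv)
    have h7 : ((p : k) / x)⁻¹ = ((↑(u⁻¹) : A) : k) := by
      rw [h5] at h6
      exact (eq_inv_of_mul_eq_one_right h6).symm
    have h8 : ((p : k) / x)⁻¹ ∈ A := by
      rw [h7]
      exact SetLike.coe_mem _
    rw [← h.nonneg _ (inv_ne_zero (div_ne_zero hp0 hx)), h.inv (div_ne_zero hp0 hx),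
      h.div hp0 hx] at h8
    omega

theorem card_quot {A : ValuationSubring k} [IsDiscreteValuationRing A] {o : k → ℤ}
    (h : IsOrd A o) (z : A) (hz : z ≠ 0) :
    Nat.card (A ⧸ Ideal.span {z}) = N A ^ (o (z : k)).toNat := by
  obtain ⟨p, hp⟩ := IsDiscreteValuationRing.exists_irreducible A
  have hp0 : (p : k) ≠ 0 := fun h => hp.ne_zero (Subtype.ext h)
  have hz0 : (z : k) ≠ 0 := fun h => hz (Subtype.ext h)
  obtain ⟨n, hn⟩ := IsDiscreteValuationRing.associated_pow_irreducible hz hp
  have h1 : Ideal.span {z} = IsLocalRing.maximalIdeal A ^ n := by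
    rw [hp.maximalIdeal_eq, Ideal.span_singleton_pow]
    exact Ideal.span_singleton_eq_span_singleton.2 hn
  have h2 : o (z : k) = n := by
    obtain ⟨u, hu⟩ := hn
    have h3 : (z : k) * ((u : A) : k) = (p : k) ^ n := congrArg Subtype.val hu
    have hu0 : ((u : A) : k) ≠ 0 := fun h => u.ne_zero (Subtype.ext h)
    have h4 : o ((u : A) : k) = 0 := by
      have h5 : ((u : A) : k) * ((↑(u⁻¹) : A) : k) = 1 := by
        exact congrArg Subtype.val (u.mul_inv)
      have h7 : ((u : A) : k)⁻¹ = ((↑(u⁻¹) : A) : k) := (eq_inv_of_mul_eq_one_right h5).symm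
      have h8 : ((u : A) : k)⁻¹ ∈ A := by rw [h7]; exact SetLike.coe_mem _
      rw [← h.nonneg _ (inv_ne_zero hu0), h.inv hu0] at h8
      have h9 := (h.nonneg _ hu0).2 (SetLike.coe_mem (u : A))
      omega
    have h5 := h.mul _ _ hz0 hu0
    rw [h3, h.pow hp0, h.irreducible hp, h4] at h5
    omega
  rw [h2, Int.toNat_natCast, h1]
  have h3 : IsLocalRing.maximalIdeal A ≠ ⊥ := IsDiscreteValuationRing.not_a_field A
  have := cardQuot_pow_of_prime (P := IsLocalRing.maximalIdeal A) h3 (i := n)
  rw [Submodule.cardQuot_apply, Submodule.cardQuot_apply] at this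
  exact this

end Card

section Zeros

variable {F k : Type*} [Field F] [Finite F] [Field k] [Algebra F k]

/-- **The zeros of `z`**: the norms of the places, raised to the orders of `z`, have a product at
most `|F| ^ n`, if `k` has dimension `n` over `F(z)`. -/
theorem zeros_le (hfin : ∀ x : k, Transcendental F x → ∃ n, Rel F x n)
    (o : ValuationSubring k → k → ℤ) (ho : ∀ A, A ≠ ⊤ → IsOrd A (o A))
    (T : Finset (ValuationSubring k)) (hT : ∀ A ∈ T, A ≠ ⊤) {z : k} (hz0 : z ≠ 0)
    (htr : Transcendental F z) (hzT : ∀ A ∈ T, z ∈ A) {n : ℕ} (hR : Rel F z n) :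
    ∏ A ∈ T, N A ^ (o A z).toNat ≤ Nat.card F ^ n := by
  classical
  have hdvr : ∀ A ∈ T, IsDiscreteValuationRing A := fun A hA => (isDVR hfin A (hT A hA)).1
  let zA : (A : T) → (A : ValuationSubring k) := fun A => ⟨z, hzT A A.2⟩
  have hzA0 : ∀ A : T, zA A ≠ 0 := fun A h => hz0 (congrArg Subtype.val h)
  let I := (A : T) → ((A : ValuationSubring k) ⧸ Ideal.span {zA A})
  have hfinI : ∀ A : T, Finite ((A : ValuationSubring k) ⧸ Ideal.span {zA A}) :=
    fun A => finite_quot hfin A (zA A) (hzA0 A)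
  have hcard : Nat.card I = ∏ A ∈ T, N A ^ (o A z).toNat := by
    rw [Nat.card_pi, ← Finset.prod_coe_sort T (fun A => N A ^ (o A z).toNat)]
    refine Finset.prod_congr rfl fun A _ => ?_
    have := hdvr A A.2
    exact card_quot (ho A (hT A A.2)) (zA A) (hzA0 A)
  rw [← hcard]
  -- representatives
  have hrep : ∀ i : I, ∃ x : k, ∀ A : T, ∃ hx : x ∈ (A : ValuationSubring k),
      Ideal.Quotient.mk (Ideal.span {zA A}) ⟨x, hx⟩ = i A := by
    intro i
    choose g hg using fun A : T => Ideal.Quotient.mk_surjective (i A)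
    obtain ⟨x, hx⟩ := approx o T (fun A hA => ho A (hT A hA))
      (fun A => if h : A ∈ T then (g ⟨A, h⟩ : k) else 0) (fun _ => z) (fun _ _ => hz0)
    refine ⟨x, fun A => ?_⟩
    have h1 := hx A A.2
    simp only [A.2, dif_pos] at h1
    have h2 : x = z * ((x - (g A : k)) / z) + (g A : k) := by
      field_simp
      ring
    have hxA : x ∈ (A : ValuationSubring k) := by
      rw [h2]
      exact A.1.add_mem _ _ (A.1.mul_mem _ _ (hzT A A.2) h1) (g A).2
    refine ⟨hxA, ?_⟩
    rw [← hg A, Ideal.Quotient.mk_eq_mk_iff_sub_mem, Ideal.mem_span_singleton]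
    refine ⟨⟨_, h1⟩, Subtype.ext ?_⟩
    change x - (g A : k) = z * ((x - (g A : k)) / z)
    field_simp
  choose y hyA hy using hrep
  refine card_le (T : Set (ValuationSubring k)) hzT htr hR y
    (fun i A hA => hyA i ⟨A, hA⟩) ?_
  rintro i j ⟨w, hw, hij⟩
  funext A
  rw [← hy i A, ← hy j A, Ideal.Quotient.mk_eq_mk_iff_sub_mem, Ideal.mem_span_singleton]
  exact ⟨⟨w, hw A A.2⟩, Subtype.ext hij⟩

theorem two_le_N (hfin : ∀ x : k, Transcendental F x → ∃ n, Rel F x n)
    (A : ValuationSubring k) (hA : A ≠ ⊤) : 2 ≤ N A := by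
  have h2 := (isDVR hfin A hA).2
  have : Nontrivial (IsLocalRing.ResidueField A) := inferInstance
  exact Finite.one_lt_card_iff_nontrivial.2 this

/-- **Finitely many places lie above a nonzero element.** -/
theorem finite_above (hfin : ∀ x : k, Transcendental F x → ∃ n, Rel F x n)
    (z : k) (hz : z ≠ 0) : {A : ValuationSubring k | z ∈ A.nonunits}.Finite := by
  classical
  have hne : ∀ A : ValuationSubring k, z ∈ A.nonunits → A ≠ ⊤ := by
    rintro A hA rfl
    rw [ValuationSubring.mem_nonunits_iff_or] at hA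
    rcases hA with h | h
    · exact hz h
    · exact h trivial
  by_contra hinf
  obtain ⟨A0, hA0⟩ : ({A : ValuationSubring k | z ∈ A.nonunits}).Nonempty :=
    Set.Infinite.nonempty hinf
  have htr := transc (F := F) A0 hA0 hz
  obtain ⟨n, hn⟩ := hfin z htr
  obtain ⟨T, hT, hcard⟩ := Set.Infinite.exists_subset_card_eq hinf (Nat.card F ^ n)
  have ho : ∀ A : ValuationSubring k, ∃ o : k → ℤ, A ≠ ⊤ → IsOrd A o := by
    intro A
    by_cases hA : A = ⊤
    · exact ⟨0, fun h => absurd hA h⟩
    · have := (isDVR hfin A hA).1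
      obtain ⟨o, ho⟩ := exists_isOrd A
      exact ⟨o, fun _ => ho⟩
  choose o ho using ho
  have h1 := zeros_le hfin o ho T (fun A hA => hne A (hT hA)) hz htr (fun A hA =>
    A.nonunits_subset (hT hA)) hn
  have h2 : 2 ^ T.card ≤ ∏ A ∈ T, N A ^ (o A z).toNat := by
    rw [← Finset.prod_const]
    refine Finset.prod_le_prod' fun A hA => ?_
    have hAt := hne A (hT hA)
    have h3 : 0 < o A z := ((ho A hAt).pos_iff hz).2 (hT hA)
    calc 2 ≤ N A := two_le_N hfin A hAt
      _ = N A ^ 1 := (pow_one _).symm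
      _ ≤ N A ^ (o A z).toNat :=
        Nat.pow_le_pow_right (by have := two_le_N hfin A hAt; omega) (by omega)
  rw [hcard] at h2
  have h3 := Nat.lt_two_pow_self (n := Nat.card F ^ n)
  omega

end Zeros

end PCl
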