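import Pool.Agent.Helper72.ZC.Defs

/-!
The degree of zero-cycles (Helper25, MP_bd895b_L).
-/

set_option autoImplicit false

open MvPolynomial

namespace ZC

universe u

variable {K : Type u} [Field K] {n r : ℕ}

/-- The coordinate field of the image of a point under an embedding. -/
theorem coordField_image {L M : Type*} [Field L] [Algebra K L] [Field M] [Algebra K M]
    (s : L →ₐ[K] M) (c : M) (hc : c ≠ 0) (x : Fin (n + 1) → L) :
    coordField K (fun i => c * s (x i)) = (coordField K x).map s := by
  rw [coordField, coordField, IntermediateField.adjoin_map]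
  congr 1
  ext z
  constructor
  · rintro ⟨i, j, rfl⟩
    refine ⟨x i / x j, ⟨i, j, rfl⟩, ?_⟩
    rw [map_div₀, mul_div_mul_left _ _ hc]
  · rintro ⟨_, ⟨i, j, rfl⟩, rfl⟩
    refine ⟨i, j, ?_⟩
    rw [mul_div_mul_left _ _ hc]
    exact map_div₀ s _ _

theorem finrank_coordField_image {L M : Type*} [Field L] [Algebra K L] [Field M] [Algebra K M]
    (s : L →ₐ[K] M) (c : M) (hc : c ≠ 0) (x : Fin (n + 1) → L) :
    Module.finrank K (coordField K (fun i => c * s (x i))) =
      Module.finrank K (coordField K x) := by
  rw [coordField_image s c hc x]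
  exact (((coordField K x).equivMap s).toLinearEquiv.finrank_eq).symm

/-- The degree of a closed point. -/
noncomputable def ClosedPoint.deg {X : ProjVar K n r} (P : ClosedPoint X) : ℕ :=
  Quotient.lift (fun y : GPt X => Module.finrank K (coordField K y.1)) (by
    rintro y y' ⟨s, c, hc, h⟩
    have h1 : y'.1 = fun i => c * (s : AlgebraicClosure K →ₐ[K] AlgebraicClosure K) (y.1 i) :=
      funext h
    change Module.finrank K (coordField K y.1) = Module.finrank K (coordField K y'.1)
    rw [h1, finrank_coordField_image _ c hc]) P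

theorem deg_closedPt (X : ProjVar K n r) {L : Type*} [Field L] [Algebra K L]
    [Algebra.IsAlgebraic K L] (x : Fin (n + 1) → L) (hx : X.IsPt x) :
    (closedPt X x hx).deg = Module.finrank K (coordField K x) := by
  have h1 := finrank_coordField_image (IsAlgClosed.lift : L →ₐ[K] AlgebraicClosure K) 1
    one_ne_zero x
  have h2 : (fun i => (1 : AlgebraicClosure K) *
      (IsAlgClosed.lift : L →ₐ[K] AlgebraicClosure K) (x i)) =
      fun i => (IsAlgClosed.lift : L →ₐ[K] AlgebraicClosure K) (x i) :=
    funext fun i => one_mul _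
  rw [h2] at h1
  exact h1

/-- The degree of a zero-cycle. -/
noncomputable def degZ (X : ProjVar K n r) : (ClosedPoint X →₀ ℤ) →+ ℤ :=
  Finsupp.liftAddHom fun P => (AddMonoidHom.mulRight (P.deg : ℤ))

theorem degZ_single (X : ProjVar K n r) (P : ClosedPoint X) (m : ℤ) :
    degZ X (Finsupp.single P m) = m * P.deg := by
  rw [degZ, Finsupp.liftAddHom_apply_single]
  rfl

/-- The degree of the push-forward of `Spec L` is `[L : K]`. -/
theorem degZ_ptCycle (X : ProjVar K n r) {L : Type*} [Field L] [Algebra K L]
    [FiniteDimensional K L] (x : Fin (n + 1) → L) (hx : X.IsPt x) :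
    degZ X (ptCycle X x hx) = Module.finrank K L := by
  have halg : Algebra.IsAlgebraic K L := inferInstance
  rw [ptCycle, dif_pos halg, degZ_single, deg_closedPt]
  have h := Module.finrank_mul_finrank K (coordField K x) L
  rw [← h]
  push_cast
  ring

/-- The degree of a principal divisor on a curve. -/
theorem degZ_curveCycle (X : ProjVar K n r) {E : Type u} [Field E] [Algebra K E]
    (hres : ∀ w : Place K E, Module.Finite K w.res) (x : Fin (n + 1) → E) (hx : X.IsPt x) (g : E)
    (hfin : {w : Place K E | w.ord g ≠ 0}.Finite)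
    (hsum : ∑ᶠ w : Place K E, w.ord g * (w.deg : ℤ) = 0) :
    degZ X (curveCycle X x hx g) = 0 := by
  rw [curveCycle, AddMonoidHom.map_finsum]
  · rw [← hsum]
    refine finsum_congr fun w => ?_
    have := hres w
    rw [map_zsmul, degZ_ptCycle, smul_eq_mul]
    rfl
  · refine hfin.subset fun w hw => ?_
    intro h
    apply hw
    change w.ord g • _ = 0
    rw [h, zero_smul]

/-- The degree map of the Chow group, given the product formula for curves. -/
noncomputable def CH0.deg' (X : ProjVar K n r)
    (hcurve : ∀ (E : Type u) [Field E] [Algebra K E], IsCurveField K E →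
      (∀ w : Place K E, Module.Finite K w.res) ∧ ∀ g : E, g ≠ 0 →
        {w : Place K E | w.ord g ≠ 0}.Finite ∧ ∑ᶠ w : Place K E, w.ord g * (w.deg : ℤ) = 0) :
    CH0 X →+ ℤ :=
  QuotientAddGroup.lift (ratEquiv X) (degZ X) (by
    rw [ratEquiv, AddSubgroup.closure_le]
    rintro c ⟨E, iF, iA, hE, x, hx, g, hg, rfl⟩
    obtain ⟨h1, h2⟩ := hcurve E hE
    exact degZ_curveCycle X h1 x hx g (h2 g hg).1 (h2 g hg).2)

theorem CH0.deg'_mk (X : ProjVar K n r) (hcurve) (c : ClosedPoint X →₀ ℤ) :
    CH0.deg' X hcurve (QuotientAddGroup.mk c) = degZ X c := rfl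

theorem CH0.deg'_cls (X : ProjVar K n r) (hcurve) (x : Fin (n + 1) → K) (hx : X.IsPt x) :
    CH0.deg' X hcurve (cls X x hx) = 1 := by
  change degZ X (Finsupp.single (closedPt X x hx) 1) = 1
  rw [degZ_single, deg_closedPt]
  have h := Module.finrank_mul_finrank K (coordField K x) K
  rw [Module.finrank_self] at h
  rw [Nat.eq_one_of_mul_eq_one_right h]
  simp

end ZC
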