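import Pool.Agent.Helper72.ZC.Defs
import Pool.Agent.Helper25.PC.Approx

/-!
Row D2 of MP_bd895b_L: the zeros of a function on a curve over any field (Helper25).
-/

set_option autoImplicit false

namespace ZC

universe u

open PCl Polynomial

section local_part

variable {A : Type u} [CommRing A] [IsDomain A]

/-- Uniqueness of expansions in a uniformiser with coefficients which are zero or units. -/
theorem expansion_unique {p : A} (hp : Prime p) :
    ∀ (m : ℕ) (a : ℕ → A), (∀ i, a i = 0 ∨ IsUnit (a i)) →
      p ^ m ∣ ∑ i ∈ Finset.range m, p ^ i * a i → ∀ i < m, a i = 0 := by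
  intro m
  induction m with
  | zero => intro a _ _ i hi; omega
  | succ m ih =>
    intro a ha hdiv
    have h1 : ∑ i ∈ Finset.range (m + 1), p ^ i * a i
        = p * (∑ i ∈ Finset.range m, p ^ i * a (i + 1)) + a 0 := by
      rw [Finset.sum_range_succ', Finset.mul_sum]
      congr 1
      · refine Finset.sum_congr rfl fun i _ => ?_
        rw [pow_succ']
        ring
      · simp
    rw [h1] at hdiv
    have h2 : p ∣ a 0 := by
      have h3 : p ∣ p * (∑ i ∈ Finset.range m, p ^ i * a (i + 1)) + a 0 :=
        dvd_trans (dvd_pow_self p (Nat.succ_ne_zero m)) hdiv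
      exact (dvd_add_right (dvd_mul_right _ _)).1 h3
    have h0 : a 0 = 0 := by
      rcases ha 0 with h | h
      · exact h
      · exact absurd (isUnit_of_dvd_unit h2 h) hp.not_isUnit
    rw [h0, add_zero, pow_succ', mul_dvd_mul_iff_left hp.ne_zero] at hdiv
    have h4 := ih (fun i => a (i + 1)) (fun i => ha (i + 1)) hdiv
    intro i hi
    cases i with
    | zero => exact h0
    | succ i => exact h4 i (by omega)

end local_part

section global_part

variable {K E : Type u} [Field K] [Field E] [Algebra K E]

/-- The valuation ring of a place as a `K`-subspace. -/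
def Place.sub (w : Place K E) : Submodule K E where
  carrier := {y | y ∈ w.A}
  add_mem' := fun ha hb => w.A.add_mem _ _ ha hb
  zero_mem' := w.A.zero_mem
  smul_mem' := fun a y hy => by
    rw [Set.mem_ofPred_eq, Algebra.smul_def]
    exact w.A.mul_mem _ _ (w.mem a) hy

theorem Place.mem_sub (w : Place K E) (y : E) : y ∈ w.sub ↔ y ∈ w.A := Iff.rfl

/-- The common ring of finitely many places. -/
def interK (T : Finset (Place K E)) : Submodule K E := ⨅ w ∈ T, w.sub

theorem mem_interK (T : Finset (Place K E)) (y : E) : y ∈ interK T ↔ ∀ w ∈ T, y ∈ w.A := by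
  simp [interK, Submodule.mem_iInf, Place.mem_sub]

/-- **The zeros of `z`**: over any field, the sum of order times degree is at most `[E : K(z)]`. -/
theorem sum_ord_mul_deg_le (T : Finset (Place K E))
    (hdvr : ∀ w ∈ T, IsDiscreteValuationRing w.A) (o : Place K E → E → ℤ)
    (ho : ∀ w ∈ T, IsOrd w.A (o w)) {z : E} (hz0 : z ≠ 0) (htr : Transcendental K z)
    (hzT : ∀ w ∈ T, z ∈ w.A) {n : ℕ} (hR : Rel K z n) :
    ∑ w ∈ T, (o w z).toNat * w.deg ≤ n := by
  classical
  -- local data
  have hloc : ∀ w : T, ∃ (p : w.1.A) (b : Fin w.1.deg → w.1.A), Irreducible p ∧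
      LinearIndependent K (fun j => IsLocalRing.residue w.1.A (b j)) := by
    intro w
    have := hdvr w w.2
    obtain ⟨p, hp⟩ := IsDiscreteValuationRing.exists_irreducible w.1.A
    by_cases hf : Module.Finite K w.1.res
    · let β := Module.finBasis K w.1.res
      choose b hb using fun j => IsLocalRing.residue_surjective (R := w.1.A) (β j)
      refine ⟨p, b, hp, ?_⟩
      have h1 : (fun j => IsLocalRing.residue w.1.A (b j)) = β := funext hb
      have h2 := β.linearIndependent
      rw [← h1] at h2
      exact h2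
    · have h0 : w.1.deg = 0 := Module.finrank_of_not_finite hf
      refine ⟨p, fun j => (Fin.cast h0 j).elim0, hp, ?_⟩
      have : IsEmpty (Fin w.1.deg) := by rw [h0]; infer_instance
      exact linearIndependent_empty_type
  choose p b hp hb using hloc
  -- approximating elements
  let I := Σ w : T, Fin (o w.1 z).toNat × Fin w.1.deg
  have happ : ∀ i : I, ∃ x : E, ∀ w : T,
      (x - (if w = i.1 then ((p i.1 : i.1.1.A) : E) ^ (i.2.1 : ℕ) * (b i.1 i.2.2 : E) else 0)) / z
        ∈ w.1.A := by
    intro i
    let oA : ValuationSubring E → E → ℤ := fun A =>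
      if h : ∃ w ∈ T, w.A = A then o h.choose else 0
    have hoA : ∀ A ∈ T.image Place.A, IsOrd A (oA A) := by
      intro A hA
      obtain ⟨w, hw, hwA⟩ := Finset.mem_image.1 hA
      have hex : ∃ w ∈ T, w.A = A := ⟨w, hw, hwA⟩
      simp only [oA, dif_pos hex]
      have h1 := ho hex.choose hex.choose_spec.1
      rw [hex.choose_spec.2] at h1
      exact h1
    obtain ⟨x, hx⟩ := approx oA (T.image Place.A) hoA
      (fun A => if A = i.1.1.A then ((p i.1 : i.1.1.A) : E) ^ (i.2.1 : ℕ) * (b i.1 i.2.2 : E)
        else 0) (fun _ => z) (fun _ _ => hz0)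
    refine ⟨x, fun w => ?_⟩
    have h1 := hx w.1.A (Finset.mem_image_of_mem _ w.2)
    have h2 : (w = i.1) ↔ (w.1.A = i.1.1.A) := by
      constructor
      · rintro rfl; rfl
      · intro h; exact Subtype.ext (Place.ext_A h)
    by_cases hw : w = i.1
    · rw [if_pos hw]
      rw [if_pos (h2.1 hw)] at h1
      exact h1
    · rw [if_neg hw]
      rw [if_neg (fun h => hw (h2.2 h))] at h1
      exact h1
  choose x hx using happ
  have hxR : ∀ i : I, x i ∈ interK T := by
    intro i
    rw [mem_interK]
    intro w hw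
    have h1 := hx i ⟨w, hw⟩
    set y0 : E := (if (⟨w, hw⟩ : T) = i.1 then
      ((p i.1 : i.1.1.A) : E) ^ (i.2.1 : ℕ) * (b i.1 i.2.2 : E) else 0) with hy0
    have hy0A : y0 ∈ w.A := by
      rw [hy0]
      split_ifs with h
      · have h3 : w = i.1.1 := congrArg Subtype.val h
        rw [h3]
        exact i.1.1.A.mul_mem _ _ (pow_mem (p i.1).2 _) (b i.1 i.2.2).2
      · exact w.A.zero_mem
    have h2 : x i = z * ((x i - y0) / z) + y0 := by
      field_simp
      ring
    rw [h2]
    exact w.A.add_mem _ _ (w.A.mul_mem _ _ (hzT w hw) h1) hy0A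
  -- the quotient
  have hq := quot_rank htr hR (interK T) (fun y hy => by
    rw [mem_interK] at hy ⊢
    exact fun w hw => w.A.mul_mem _ _ (hzT w hw) (hy w hw))
  set U : Submodule K (interK T) :=
    ((interK T).map (LinearMap.mulLeft K z)).comap (interK T).subtype with hU
  have hli : LinearIndependent K (fun i : I =>
      (Submodule.Quotient.mk (⟨x i, hxR i⟩ : interK T) : (interK T) ⧸ U)) := by
    rw [Fintype.linearIndependent_iff]
    intro c hc
    have h1 : (∑ i, c i • (⟨x i, hxR i⟩ : interK T)) ∈ U := by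
      rw [← Submodule.Quotient.mk_eq_zero, ← hc]
      rw [← Submodule.mkQ_apply, map_sum]
      refine Finset.sum_congr rfl fun i _ => ?_
      rw [map_smul, Submodule.mkQ_apply]
    rw [hU, Submodule.mem_comap, Submodule.mem_map] at h1
    obtain ⟨v, hv, hv2⟩ := h1
    rw [LinearMap.mulLeft_apply, Submodule.subtype_apply] at hv2
    have hv3 : z * v = ∑ i, c i • x i := by
      rw [hv2]
      push_cast
      rfl
    have hvA := (mem_interK T v).1 hv
    rintro ⟨w, i0, j0⟩
    have hdw := hdvr w w.2
    have how := ho w w.2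
    -- the coefficients at `w`
    let a : ℕ → w.1.A := fun i =>
      if h : i < (o w.1 z).toNat then ∑ j, c ⟨w, ⟨i, h⟩, j⟩ • b w j else 0
    have ha : ∀ i, a i = 0 ∨ IsUnit (a i) := by
      intro i
      by_cases h : i < (o w.1 z).toNat
      · by_cases hz : ∀ j, c ⟨w, ⟨i, h⟩, j⟩ = 0
        · left
          simp only [a, dif_pos h]
          exact Finset.sum_eq_zero fun j _ => by rw [hz j, zero_smul]
        · right
          by_contra hu
          apply hz
          have h3 : IsLocalRing.residue w.1.A (a i) = 0 := by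
            rw [IsLocalRing.residue_eq_zero_iff]
            exact hu
          have h4 := Fintype.linearIndependent_iff.1 (hb w) (fun j => c ⟨w, ⟨i, h⟩, j⟩) (by
            rw [← h3]
            simp only [a, dif_pos h]
            rw [map_sum]
            refine Finset.sum_congr rfl fun j _ => ?_
            rw [Algebra.smul_def, Algebra.smul_def, map_mul]
            rfl)
          exact h4
      · left
        simp only [a, dif_neg h]
    have hpp : Prime (p w) := (hp w).prime
    have hmul : ∀ i, c i • x i = z * (c i • ((x i - (if w = i.1 then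
        ((p i.1 : i.1.1.A) : E) ^ (i.2.1 : ℕ) * (b i.1 i.2.2 : E) else 0)) / z))
        + c i • (if w = i.1 then
        ((p i.1 : i.1.1.A) : E) ^ (i.2.1 : ℕ) * (b i.1 i.2.2 : E) else 0) := by
      intro i
      rw [mul_smul_comm, ← smul_add]
      congr 1
      field_simp
      ring
    have hsum : ∑ i : I, c i • (if w = i.1 then
        ((p i.1 : i.1.1.A) : E) ^ (i.2.1 : ℕ) * (b i.1 i.2.2 : E) else 0)
        = ((∑ i ∈ Finset.range (o w.1 z).toNat, p w ^ i * a i : w.1.A) : E) := by
      rw [Fintype.sum_sigma, Finset.sum_eq_single w]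
      · rw [Fintype.sum_prod_type, Finset.sum_range]
        push_cast
        refine Finset.sum_congr rfl fun i _ => ?_
        have h5 : a (i : ℕ) = ∑ j, c ⟨w, i, j⟩ • b w j := by
          simp only [a]
          rw [dif_pos (show (i : ℕ) < (o w.1 z).toNat from i.2)]
        rw [h5]
        push_cast
        rw [Finset.mul_sum]
        refine Finset.sum_congr rfl fun j _ => ?_
        have h6 : ((c ⟨w, i, j⟩ • b w j : w.1.A) : E) = c ⟨w, i, j⟩ • (b w j : E) := by
          rw [Algebra.smul_def, Algebra.smul_def]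
          rfl
        rw [if_pos rfl, h6, mul_smul_comm]
      · intro w' _ hw'
        refine Finset.sum_eq_zero fun y _ => ?_
        rw [if_neg (fun h => hw' h.symm), smul_zero]
      · intro h
        exact absurd (Finset.mem_univ w) h
    -- the sum is divisible by `z`, hence by `p ^ m`
    have hz1 : ∃ u : w.1.A, (∑ i ∈ Finset.range (o w.1 z).toNat, p w ^ i * a i : w.1.A) = ⟨z, hzT w w.2⟩ * u := by
      refine ⟨⟨v, hvA w w.2⟩ - ∑ i : I, c i • ⟨_, hx i w⟩, Subtype.ext ?_⟩
      rw [← hsum]
      have h7 := Finset.sum_congr (rfl : (Finset.univ : Finset I) = Finset.univ)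
        fun i _ => hmul i
      rw [Finset.sum_add_distrib, ← hv3, ← Finset.mul_sum] at h7
      have h8 : ((∑ i : I, c i • (⟨_, hx i w⟩ : w.1.A) : w.1.A) : E)
          = ∑ i : I, c i • ((x i - (if w = i.1 then
        ((p i.1 : i.1.1.A) : E) ^ (i.2.1 : ℕ) * (b i.1 i.2.2 : E) else 0)) / z) := by
        push_cast
        refine Finset.sum_congr rfl fun i _ => ?_
        rw [Algebra.smul_def, Algebra.smul_def]
        rfl
      change _ = z * (v - ((∑ i : I, c i • (⟨_, hx i w⟩ : w.1.A) : w.1.A) : E))
      rw [h8, mul_sub, h7]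
      ring
    have hpm : p w ^ (o w.1 z).toNat ∣ (⟨z, hzT w w.2⟩ : w.1.A) := by
      have hp0 : ((p w : w.1.A) : E) ≠ 0 := fun h => (hp w).ne_zero (Subtype.ext h)
      have h9 : z / ((p w : w.1.A) : E) ^ (o w.1 z).toNat ∈ w.1.A := by
        rw [← how.le_iff (pow_ne_zero _ hp0) hz0, how.pow hp0, how.irreducible (hp w)]
        have := (how.nonneg z hz0).2 (hzT w w.2)
        rw [Int.toNat_of_nonneg this]
        linarith
      refine ⟨⟨_, h9⟩, Subtype.ext ?_⟩
      change z = ((p w : w.1.A) : E) ^ (o w.1 z).toNat * (z / ((p w : w.1.A) : E) ^ (o w.1 z).toNat)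
      field_simp
    obtain ⟨u, hu⟩ := hz1
    have h10 := expansion_unique hpp _ a ha (by
      rw [hu]
      exact dvd_mul_of_dvd_left hpm u) i0 i0.2
    have h11 : (∑ j, c ⟨w, i0, j⟩ • IsLocalRing.residue w.1.A (b w j)) = 0 := by
      have h12 : IsLocalRing.residue w.1.A (a i0) = 0 := by rw [h10, map_zero]
      rw [← h12]
      simp only [a]
      rw [dif_pos (show (i0 : ℕ) < (o w.1 z).toNat from i0.2), map_sum]
      refine Finset.sum_congr rfl fun j _ => ?_
      rw [Algebra.smul_def, Algebra.smul_def, map_mul]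
      rfl
    exact Fintype.linearIndependent_iff.1 (hb w) (fun j => c ⟨w, i0, j⟩) h11 j0
  -- count
  have hfin : Module.Finite K ((interK T) ⧸ U) := by
    rw [← Module.rank_lt_aleph0_iff]
    exact lt_of_le_of_lt hq (Cardinal.natCast_lt_aleph0 (n := n))
  have h13 := hli.fintype_card_le_finrank
  have h14 : Module.finrank K ((interK T) ⧸ U) ≤ n := by
    rw [← Module.finrank_eq_rank] at hq
    exact_mod_cast hq
  have h15 : Fintype.card I = ∑ w ∈ T, (o w z).toNat * w.deg := by
    rw [Fintype.card_sigma, ← Finset.sum_coe_sort T (fun w => (o w z).toNat * w.deg)]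
    refine Finset.sum_congr rfl fun w _ => ?_
    rw [Fintype.card_prod, Fintype.card_fin, Fintype.card_fin]
  rw [← h15]
  exact h13.trans h14

end global_part

end ZC
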