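import Pool.Agent.Helper25.PC.Place

/-!
The order function of a place (Helper25, row PIC of MP_bd895b_L).
-/

namespace PCl

variable {k : Type*} [Field k]

/-- `o` is the normalised order function of the valuation ring `A`
(its value at `0` is irrelevant). -/
structure IsOrd (A : ValuationSubring k) (o : k → ℤ) : Prop where
  mul : ∀ x y : k, x ≠ 0 → y ≠ 0 → o (x * y) = o x + o y
  nonneg : ∀ x : k, x ≠ 0 → (0 ≤ o x ↔ x ∈ A)
  surj : ∃ x : k, x ≠ 0 ∧ o x = 1

namespace IsOrd

variable {A : ValuationSubring k} {o : k → ℤ} (h : IsOrd A o)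
include h

theorem one : o 1 = 0 := by
  have := h.mul 1 1 one_ne_zero one_ne_zero
  rw [mul_one] at this
  linarith

theorem inv {x : k} (hx : x ≠ 0) : o x⁻¹ = -o x := by
  have := h.mul x x⁻¹ hx (inv_ne_zero hx)
  rw [mul_inv_cancel₀ hx, h.one] at this
  linarith

theorem div {x y : k} (hx : x ≠ 0) (hy : y ≠ 0) : o (x / y) = o x - o y := by
  rw [div_eq_mul_inv, h.mul _ _ hx (inv_ne_zero hy), h.inv hy]
  ring

theorem pow {x : k} (hx : x ≠ 0) (n : ℕ) : o (x ^ n) = n * o x := by
  induction n with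
  | zero => simp [h.one]
  | succ n ih =>
    rw [pow_succ, h.mul _ _ (pow_ne_zero _ hx) hx, ih]
    push_cast
    ring

theorem zpow {x : k} (hx : x ≠ 0) (n : ℤ) : o (x ^ n) = n * o x := by
  obtain ⟨m, rfl | rfl⟩ := n.eq_nat_or_neg
  · rw [zpow_natCast, h.pow hx]
  · rw [zpow_neg, zpow_natCast, h.inv (pow_ne_zero _ hx), h.pow hx]
    simp

theorem exists_eq (n : ℤ) : ∃ x : k, x ≠ 0 ∧ o x = n := by
  obtain ⟨x, hx, hx1⟩ := h.surj
  exact ⟨x ^ n, zpow_ne_zero _ hx, by rw [h.zpow hx, hx1, mul_one]⟩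

/-- `o x ≤ o y` means that `y / x` lies in `A`. -/
theorem le_iff {x y : k} (hx : x ≠ 0) (hy : y ≠ 0) : o x ≤ o y ↔ y / x ∈ A := by
  rw [← h.nonneg _ (div_ne_zero hy hx), h.div hy hx]
  constructor <;> intro h' <;> linarith

theorem pos_iff {x : k} (hx : x ≠ 0) : 0 < o x ↔ x ∈ A.nonunits := by
  rw [A.mem_nonunits_iff_or]
  constructor
  · intro h1
    right
    intro h2
    have := (h.nonneg _ (inv_ne_zero hx)).2 h2
    rw [h.inv hx] at this
    linarith
  · rintro (h1 | h1)
    · exact absurd h1 hx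
    · by_contra h2
      apply h1
      rw [← h.nonneg _ (inv_ne_zero hx), h.inv hx]
      linarith

theorem min_le_add {x y : k} (hx : x ≠ 0) (hy : y ≠ 0) (hxy : x + y ≠ 0) :
    min (o x) (o y) ≤ o (x + y) := by
  rcases le_total (o x) (o y) with h1 | h1
  · rw [min_eq_left h1, h.le_iff hx hxy, add_div, div_self hx]
    exact A.add_mem _ _ A.one_mem ((h.le_iff hx hy).1 h1)
  · rw [min_eq_right h1, h.le_iff hy hxy, add_div, div_self hy]
    exact A.add_mem _ _ ((h.le_iff hy hx).1 h1) A.one_mem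

/-- Lower bounds are preserved by sums. -/
theorem le_sum {ι : Type*} (s : Finset ι) (f : ι → k) (b : ℤ)
    (hb : ∀ i ∈ s, f i ≠ 0 → b ≤ o (f i)) (hs : ∑ i ∈ s, f i ≠ 0) : b ≤ o (∑ i ∈ s, f i) := by
  classical
  induction s using Finset.induction_on with
  | empty => simp at hs
  | insert i s hi ih =>
    rw [Finset.sum_insert hi] at hs ⊢
    have ih' := ih (fun j hj => hb j (Finset.mem_insert_of_mem hj))
    by_cases h1 : f i = 0
    · rw [h1, zero_add] at hs ⊢
      exact ih' hs
    by_cases h2 : ∑ j ∈ s, f j = 0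
    · rw [h2, add_zero]
      exact hb i (Finset.mem_insert_self _ _) h1
    · exact le_trans (le_min (hb i (Finset.mem_insert_self _ _) h1) (ih' h2))
        (h.min_le_add h1 h2 hs)

/-- The order function is determined by the ring. -/
theorem unique {o' : k → ℤ} (h' : IsOrd A o') {x : k} (hx : x ≠ 0) : o x = o' x := by
  obtain ⟨p, hp, hp1⟩ := h.surj
  obtain ⟨p', hp', hp1'⟩ := h'.surj
  -- units agree
  have hu : ∀ y : k, y ≠ 0 → (o y = 0 ↔ o' y = 0) := by
    intro y hy
    have a := h.nonneg y hy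
    have b := h.nonneg y⁻¹ (inv_ne_zero hy)
    have a' := h'.nonneg y hy
    have b' := h'.nonneg y⁻¹ (inv_ne_zero hy)
    rw [h.inv hy] at b
    rw [h'.inv hy] at b'
    constructor
    · intro h0
      have h1 := a'.2 (a.1 (by omega))
      have h2 := b'.2 (b.1 (by omega))
      omega
    · intro h0
      have h1 := a.2 (a'.1 (by omega))
      have h2 := b.2 (b'.1 (by omega))
      omega
  -- `o' = o' p * o`
  have key : ∀ y : k, y ≠ 0 → o' y = o y * o' p := by
    intro y hy
    have h1 : o (y / p ^ (o y)) = 0 := by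
      rw [h.div hy (zpow_ne_zero _ hp), h.zpow hp, hp1]
      ring
    have h2 := (hu _ (div_ne_zero hy (zpow_ne_zero _ hp))).1 h1
    rw [h'.div hy (zpow_ne_zero _ hp), h'.zpow hp] at h2
    linarith
  have h3 := key p' hp'
  rw [hp1'] at h3
  have h4 : 0 ≤ o' p := (h'.nonneg p hp).2 ((h.nonneg p hp).1 (by omega))
  have h5 : o' p = 1 := by
    rcases Int.isUnit_iff.1 (IsUnit.of_mul_eq_one (o p') (by linarith : o' p * o p' = 1)) with
      h5 | h5
    · exact h5
    · omega
  rw [key x hx, h5, mul_one]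

end IsOrd

/-- A discrete valuation ring has an order function. -/
theorem exists_isOrd (A : ValuationSubring k) [IsDiscreteValuationRing A] :
    ∃ o : k → ℤ, IsOrd A o := by
  classical
  obtain ⟨p, hp⟩ := IsDiscreteValuationRing.exists_irreducible A
  have hp0 : (p : k) ≠ 0 := fun h => hp.ne_zero (Subtype.ext h)
  have hpn : (p : k) ∈ A.nonunits := by
    rw [A.mem_nonunits_iff]
    refine lt_of_le_of_ne ((A.valuation_le_one_iff _).2 p.2) ?_
    intro h
    exact hp.not_isUnit ((A.valuation_eq_one_iff p).2 h)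
  have hvp : A.valuation (p : k) < 1 := (A.mem_nonunits_iff).1 hpn
  have hvp0 : A.valuation (p : k) ≠ 0 := (Valuation.ne_zero_iff _).2 hp0
  -- every value is a power of the value of `p`
  have hpow : ∀ x : k, x ≠ 0 → ∃ n : ℤ, A.valuation x = A.valuation (p : k) ^ n := by
    have hA : ∀ x : A, x ≠ 0 → ∃ n : ℤ, A.valuation (x : k) = A.valuation (p : k) ^ n := by
      intro x hx
      obtain ⟨n, hn⟩ := IsDiscreteValuationRing.associated_pow_irreducible hx hp
      obtain ⟨u, hu⟩ := hn
      refine ⟨n, ?_⟩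
      have h1 : (x : k) * ((u : A) : k) = (p : k) ^ n := congrArg Subtype.val hu
      have h2 : A.valuation ((u : A) : k) = 1 := (A.valuation_eq_one_iff _).1 u.isUnit
      rw [zpow_natCast, ← map_pow, ← h1, map_mul, h2, mul_one]
    intro x hx
    rcases A.mem_or_inv_mem x with h | h
    · exact hA ⟨x, h⟩ (fun h' => hx (congrArg Subtype.val h'))
    · obtain ⟨n, hn⟩ := hA ⟨x⁻¹, h⟩ (fun h' => inv_ne_zero hx (congrArg Subtype.val h'))
      refine ⟨-n, ?_⟩
      rw [zpow_neg, ← hn, map_inv₀, inv_inv]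
  have hinj : ∀ m n : ℤ, A.valuation (p : k) ^ m = A.valuation (p : k) ^ n → m = n := by
    intro m n hmn
    by_contra hne
    rcases lt_or_gt_of_ne hne with h | h
    · exact absurd hmn (ne_of_gt ((zpow_right_strictAnti₀ (zero_lt_iff.2 hvp0) hvp) h))
    · exact absurd hmn (ne_of_lt ((zpow_right_strictAnti₀ (zero_lt_iff.2 hvp0) hvp) h))
  choose! o ho using hpow
  refine ⟨o, ⟨?_, ?_, ?_⟩⟩
  · intro x y hx hy
    apply hinj
    rw [← ho _ (mul_ne_zero hx hy), map_mul, ho x hx, ho y hy, zpow_add₀ hvp0]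
  · intro x hx
    rw [← A.valuation_le_one_iff, ho x hx]
    constructor
    · intro h
      obtain ⟨m, hm⟩ := Int.eq_ofNat_of_zero_le h
      rw [hm, zpow_natCast]
      exact pow_le_one₀ zero_le hvp.le
    · intro h
      by_contra hneg
      push Not at hneg
      have : A.valuation (p : k) ^ (0 : ℤ) < A.valuation (p : k) ^ (o x) :=
        (zpow_right_strictAnti₀ (zero_lt_iff.2 hvp0) hvp) hneg
      rw [zpow_zero] at this
      exact absurd h (not_le.2 this)
  · refine ⟨p, hp0, ?_⟩
    apply hinj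
    rw [← ho _ hp0, zpow_one]

end PCl
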