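import Mathlib

/-!
Places of a global function field (Helper25, row PIC of MP_bd895b_L): every valuation subring
different from the field is a discrete valuation ring with a finite residue field.
-/

namespace PCl

open Polynomial IntermediateField

variable {F k : Type*} [Field F] [Field k] [Algebra F k]

/-- `n + 1` elements always satisfy a relation with coefficients in `F[x]`. -/
def Rel (F : Type*) {k : Type*} [Field F] [Field k] [Algebra F k] (x : k) (n : ℕ) : Prop :=
  ∀ y : Fin (n + 1) → k, ∃ c : Fin (n + 1) → F[X], c ≠ 0 ∧ ∑ i, aeval x (c i) * y i = 0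

/-- There are `n` elements which satisfy no relation with coefficients in `F[x]`. -/
def Ind (F : Type*) {k : Type*} [Field F] [Field k] [Algebra F k] (x : k) (n : ℕ) : Prop :=
  ∃ u : Fin n → k, ∀ c : Fin n → F[X], ∑ i, aeval x (c i) * u i = 0 → c = 0

theorem aeval_ne {x : k} (hx : Transcendental F x) {p : F[X]} (hp : p ≠ 0) : aeval x p ≠ 0 := by
  intro h
  exact hx ⟨p, hp, h⟩

theorem rel_of (x : k) [FiniteDimensional F⟮x⟯ k] :
    Rel F x (Module.finrank F⟮x⟯ k) := by
  classical
  intro y
  have hnl : ¬ LinearIndependent F⟮x⟯ y := by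
    intro h
    have := h.fintype_card_le_finrank
    simp at this
  rw [Fintype.linearIndependent_iff] at hnl
  push Not at hnl
  obtain ⟨g, hg, i0, hi0⟩ := hnl
  have hrs : ∀ i, ∃ r s : F[X], aeval x s ≠ 0 ∧ (g i : k) * aeval x s = aeval x r := by
    intro i
    obtain ⟨r, s, h⟩ := (mem_adjoin_simple_iff F (g i : k)).1 (g i).2
    by_cases hs : aeval x s = 0
    · refine ⟨0, 1, by simp, ?_⟩
      rw [h, hs]
      simp
    · exact ⟨r, s, hs, by rw [h]; field_simp⟩
  choose r s hs hr using hrs
  refine ⟨fun i => r i * ∏ j ∈ Finset.univ.erase i, s j, ?_, ?_⟩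
  · intro h0
    have h1 := congrFun h0 i0
    simp only [Pi.zero_apply] at h1
    have h2 : aeval x (r i0 * ∏ j ∈ Finset.univ.erase i0, s j) = 0 := by rw [h1]; simp
    rw [map_mul, map_prod, mul_eq_zero, Finset.prod_eq_zero_iff] at h2
    rcases h2 with h2 | ⟨j, -, h2⟩
    · rw [← hr i0, mul_eq_zero] at h2
      rcases h2 with h2 | h2
      · exact hi0 (by exact_mod_cast h2)
      · exact hs i0 h2
    · exact hs j h2
  · have h1 : ∀ i, aeval x (r i * ∏ j ∈ Finset.univ.erase i, s j) * y i
        = (∏ j, aeval x (s j)) * ((g i : k) * y i) := by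
      intro i
      rw [map_mul, map_prod, ← hr i, ← Finset.mul_prod_erase Finset.univ _ (Finset.mem_univ i)]
      ring
    rw [Finset.sum_congr rfl fun i _ => h1 i, ← Finset.mul_sum]
    have h2 : ∑ i, (g i : k) * y i = 0 := by
      simpa [Algebra.smul_def] using hg
    rw [h2, mul_zero]

theorem ind_of (x : k) (hx : Transcendental F x) [FiniteDimensional F⟮x⟯ k] :
    Ind F x (Module.finrank F⟮x⟯ k) := by
  classical
  let b := Module.finBasis F⟮x⟯ k
  refine ⟨fun i => b i, fun c hc => ?_⟩
  have hli := b.linearIndependent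
  rw [Fintype.linearIndependent_iff] at hli
  have hmem : ∀ i, aeval x (c i) ∈ F⟮x⟯ := fun i =>
    (mem_adjoin_simple_iff F _).2 ⟨c i, 1, by simp⟩
  have := hli (fun i => ⟨aeval x (c i), hmem i⟩) (by
    simpa [Algebra.smul_def] using hc)
  funext i
  have h1 := this i
  by_contra hne
  exact aeval_ne hx (p := c i) hne (by simpa using congrArg Subtype.val h1)

/-- Every finite field lies in every valuation ring. -/
theorem F_mem [Finite F] (A : ValuationSubring k) (a : F) : algebraMap F k a ∈ A := by
  have := Fintype.ofFinite F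
  by_cases ha : a = 0
  · rw [ha, map_zero]
    exact A.zero_mem
  rcases A.mem_or_inv_mem (algebraMap F k a) with h | h
  · exact h
  · have h1 : a ^ (Fintype.card F - 1) = 1 := FiniteField.pow_card_sub_one_eq_one a ha
    obtain ⟨m, hm⟩ : ∃ m, Fintype.card F - 1 = m + 1 := by
      have : 1 < Fintype.card F := Fintype.one_lt_card
      exact ⟨Fintype.card F - 2, by omega⟩
    rw [hm] at h1
    have h2 : algebraMap F k a = ((algebraMap F k a)⁻¹) ^ m := by
      have h3 : algebraMap F k a ^ m * algebraMap F k a = 1 := by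
        rw [← pow_succ, ← map_pow, h1, map_one]
      rw [inv_pow]
      exact eq_inv_of_mul_eq_one_right h3
    rw [h2]
    exact pow_mem h m

/-- A nonzero non-unit of a valuation ring is transcendental. -/
theorem transc [Finite F] (A : ValuationSubring k) {z : k} (hz : z ∈ A.nonunits) (h0 : z ≠ 0) :
    Transcendental F z := by
  intro halg
  have hint : IsIntegral F z := halg.isIntegral
  have : FiniteDimensional F F⟮z⟯ := adjoin.finiteDimensional hint
  have : Finite F⟮z⟯ := Module.finite_of_finite F
  have := Fintype.ofFinite F⟮z⟯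
  have h1 := FiniteField.pow_card_sub_one_eq_one (⟨z, mem_adjoin_simple_self F z⟩ : F⟮z⟯)
    (by
      intro h
      exact h0 (congrArg Subtype.val h))
  have h2 : z ^ (Fintype.card F⟮z⟯ - 1) = 1 := by
    simpa using congrArg Subtype.val h1
  have h3 : 0 < Fintype.card F⟮z⟯ - 1 := by
    have : 1 < Fintype.card F⟮z⟯ := Fintype.one_lt_card
    omega
  rw [A.mem_nonunits_iff] at hz
  have h4 : A.valuation (z ^ (Fintype.card F⟮z⟯ - 1)) < 1 := by
    rw [map_pow]
    exact pow_lt_one₀ zero_le hz (by omega)
  rw [h2, map_one] at h4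
  exact lt_irrefl _ h4

/-- Modulo `z`, an `F[z]`-submodule of `k` has dimension at most `n`. -/
theorem quot_rank {z : k} (hz : Transcendental F z) {n : ℕ} (hR : Rel F z n)
    (R : Submodule F k) (hzR : ∀ y ∈ R, z * y ∈ R) :
    Module.rank F (R ⧸ ((R.map (LinearMap.mulLeft F z)).comap R.subtype)) ≤ n := by
  classical
  set U : Submodule F R := (R.map (LinearMap.mulLeft F z)).comap R.subtype with hU
  have hz0 : z ≠ 0 := by
    rintro rfl
    exact hz isAlgebraic_zero
  refine rank_le fun s hs => ?_
  by_contra hcard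
  push Not at hcard
  -- choose n+1 elements
  obtain ⟨e⟩ : Nonempty (Fin (n + 1) ↪ s) := by
    rw [Function.Embedding.nonempty_iff_card_le]
    simpa using hcard
  have hs' : LinearIndependent F (fun i : Fin (n + 1) => ((e i : s) : R ⧸ U)) :=
    hs.comp e e.injective
  choose y hy using fun i : Fin (n + 1) => Submodule.Quotient.mk_surjective U ((e i : s) : R ⧸ U)
  obtain ⟨c, hc0, hc⟩ := hR (fun i => (y i : k))
  -- divide by the largest power of X
  obtain ⟨d, hd0, hd⟩ : ∃ d : Fin (n + 1) → F[X], (∃ i, (d i).coeff 0 ≠ 0) ∧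
      ∑ i, aeval z (d i) * (y i : k) = 0 := by
    -- strong induction on the sum of degrees
    have key : ∀ N : ℕ, ∀ c : Fin (n + 1) → F[X], c ≠ 0 → (∀ i, (c i).natDegree ≤ N) →
        ∑ i, aeval z (c i) * (y i : k) = 0 → ∃ d : Fin (n + 1) → F[X],
        (∃ i, (d i).coeff 0 ≠ 0) ∧ ∑ i, aeval z (d i) * (y i : k) = 0 := by
      intro N
      induction N with
      | zero =>
        intro c hc0 hN hc
        refine ⟨c, ?_, hc⟩
        obtain ⟨i, hi⟩ := Function.ne_iff.1 hc0
        refine ⟨i, fun h => hi ?_⟩
        have := Polynomial.eq_C_of_natDegree_le_zero (hN i)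
        rw [this, h]
        simp
      | succ N ih =>
        intro c hc0 hN hc
        by_cases h : ∃ i, (c i).coeff 0 ≠ 0
        · exact ⟨c, h, hc⟩
        push Not at h
        have hdiv : ∀ i, c i = X * (c i).divX := by
          intro i
          conv_lhs => rw [← Polynomial.X_mul_divX_add (c i)]
          rw [h i]
          simp
        refine ih (fun i => (c i).divX) ?_ ?_ ?_
        · intro h1
          apply hc0
          funext i
          rw [hdiv i, congrFun h1 i]
          simp
        · intro i
          rw [Polynomial.natDegree_divX_eq_natDegree_tsub_one]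
          have := hN i
          omega
        · have h2 : z * ∑ i, aeval z (c i).divX * (y i : k) = 0 := by
            rw [Finset.mul_sum, ← hc]
            refine Finset.sum_congr rfl fun i _ => ?_
            conv_rhs => rw [hdiv i]
            rw [map_mul, aeval_X]
            ring
          exact (mul_eq_zero.1 h2).resolve_left hz0
    exact key _ c hc0 (fun i => Finset.le_sup (f := fun i => (c i).natDegree)
      (Finset.mem_univ i)) hc
  obtain ⟨i0, hi0⟩ := hd0
  -- polynomials in z act on R
  have hact : ∀ (p : F[X]) (w : k), w ∈ R → aeval z p * w ∈ R := by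
    intro p w hw
    induction p using Polynomial.induction_on' with
    | add p q hp hq =>
      rw [map_add, add_mul]
      exact R.add_mem hp hq
    | monomial m a =>
      rw [aeval_monomial]
      have h1 : z ^ m * w ∈ R := by
        induction m with
        | zero => simpa using hw
        | succ m ihm =>
          rw [pow_succ', mul_assoc]
          exact hzR _ ihm
      rw [mul_assoc, ← Algebra.smul_def]
      exact R.smul_mem a h1
  rw [Fintype.linearIndependent_iff] at hs'
  have hrel : ∑ i, (d i).coeff 0 • ((e i : s) : R ⧸ U) = 0 := by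
    have h1 : ∑ i, (d i).coeff 0 • ((e i : s) : R ⧸ U)
        = Submodule.Quotient.mk (∑ i, (d i).coeff 0 • y i) := by
      rw [← Submodule.mkQ_apply, map_sum]
      refine Finset.sum_congr rfl fun i _ => ?_
      rw [map_smul, Submodule.mkQ_apply, hy]
    rw [h1, Submodule.Quotient.mk_eq_zero, hU, Submodule.mem_comap, Submodule.mem_map]
    refine ⟨-∑ i, aeval z (d i).divX * (y i : k), ?_, ?_⟩
    · exact R.neg_mem (R.sum_mem fun i _ => hact _ _ (y i).2)
    · rw [LinearMap.mulLeft_apply, Submodule.subtype_apply]
      have h2 : ∑ i, aeval z (d i) * (y i : k)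
          = z * (∑ i, aeval z (d i).divX * (y i : k)) + ((∑ i, (d i).coeff 0 • y i : R) : k) := by
        rw [Finset.mul_sum]
        push_cast
        rw [← Finset.sum_add_distrib]
        refine Finset.sum_congr rfl fun i _ => ?_
        conv_lhs => rw [← Polynomial.X_mul_divX_add (d i)]
        rw [map_add, map_mul, aeval_X, aeval_C, Algebra.smul_def]
        ring
      rw [hd] at h2
      rw [mul_neg]
      exact (eq_neg_of_add_eq_zero_right h2.symm).symm
  exact hi0 (hs' (fun i => (d i).coeff 0) hrel i0)

/-- The valuation ring as an `F`-subspace. -/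
def asSub (F : Type*) {k : Type*} [Field F] [Finite F] [Field k] [Algebra F k]
    (A : ValuationSubring k) : Submodule F k where
  carrier := {y | y ∈ A}
  add_mem' := fun ha hb => A.add_mem _ _ ha hb
  zero_mem' := A.zero_mem
  smul_mem' := fun a y hy => by
    rw [Set.mem_ofPred_eq, Algebra.smul_def]
    exact A.mul_mem _ _ (F_mem A a) hy

theorem mem_asSub [Finite F] (A : ValuationSubring k) (y : k) : y ∈ asSub F A ↔ y ∈ A := Iff.rfl

/-- The common ring of a set of valuation rings as an `F`-subspace. -/
def interSub (F : Type*) {k : Type*} [Field F] [Finite F] [Field k] [Algebra F k]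
    (T : Set (ValuationSubring k)) : Submodule F k := ⨅ A ∈ T, asSub F A

theorem mem_interSub [Finite F] (T : Set (ValuationSubring k)) (y : k) :
    y ∈ interSub F T ↔ ∀ A ∈ T, y ∈ A := by
  simp [interSub, Submodule.mem_iInf, mem_asSub]

/-- A subset of the common ring which is incongruent modulo `z` has at most `|F|^n` elements. -/
theorem card_le [Finite F] (T : Set (ValuationSubring k)) {z : k} (hz : ∀ A ∈ T, z ∈ A)
    (htr : Transcendental F z) {n : ℕ} (hR : Rel F z n) {I : Type*} [Finite I] (y : I → k)
    (hy : ∀ i, ∀ A ∈ T, y i ∈ A)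
    (hinc : ∀ i j, (∃ w, (∀ A ∈ T, w ∈ A) ∧ y i - y j = z * w) → i = j) :
    Nat.card I ≤ Nat.card F ^ n := by
  classical
  set R := interSub F T with hRdef
  have hq := quot_rank htr hR R (fun w hw => by
    rw [hRdef, mem_interSub] at hw ⊢
    exact fun A hA => A.mul_mem _ _ (hz A hA) (hw A hA))
  set U : Submodule F R := (R.map (LinearMap.mulLeft F z)).comap R.subtype with hU
  have hfin : Module.Finite F (R ⧸ U) := by
    rw [← Module.rank_lt_aleph0_iff]
    exact lt_of_le_of_lt hq (Cardinal.natCast_lt_aleph0 (n := n))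
  have hfinrank : Module.finrank F (R ⧸ U) ≤ n := by
    rw [← Module.finrank_eq_rank] at hq
    exact_mod_cast hq
  have : Finite (R ⧸ U) := Module.finite_of_finite F
  have hinj : Function.Injective (fun i : I => (Submodule.Quotient.mk
      (⟨y i, (mem_interSub T _).2 (hy i)⟩ : R) : R ⧸ U)) := by
    intro i j hij
    apply hinc i j
    simp only [Submodule.Quotient.eq] at hij
    rw [hU, Submodule.mem_comap, Submodule.mem_map] at hij
    obtain ⟨w, hw, hw2⟩ := hij
    exact ⟨w, (mem_interSub T _).1 hw, by simpa using hw2.symm⟩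
  calc Nat.card I ≤ Nat.card (R ⧸ U) := Nat.card_le_card_of_injective _ hinj
    _ = Nat.card F ^ Module.finrank F (R ⧸ U) := Module.natCard_eq_pow_finrank
    _ ≤ Nat.card F ^ n := Nat.pow_le_pow_right Nat.card_pos hfinrank

/-- `A/zA` is finite for a nonzero non-unit `z`. -/
theorem finite_quot [Finite F] (hfin : ∀ x : k, Transcendental F x → ∃ n, Rel F x n)
    (A : ValuationSubring k) (z : A) (h0 : z ≠ 0) : Finite (A ⧸ Ideal.span {z}) := by
  classical
  by_cases hu : IsUnit z
  · rw [Ideal.span_singleton_eq_top.2 hu]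
    have : Subsingleton (A ⧸ (⊤ : Ideal A)) := Ideal.Quotient.subsingleton_iff.2 rfl
    infer_instance
  have hz : (z : k) ∈ A.nonunits := by
    rw [A.mem_nonunits_iff]
    refine lt_of_le_of_ne ((A.valuation_le_one_iff _).2 z.2) ?_
    intro h
    exact hu ((A.valuation_eq_one_iff z).2 h)
  have hz0 : (z : k) ≠ 0 := fun h => h0 (Subtype.ext h)
  have htr := transc (F := F) A hz hz0
  obtain ⟨n, hn⟩ := hfin _ htr
  by_contra hinf
  rw [not_finite_iff_infinite] at hinf
  obtain ⟨s, hs⟩ := Infinite.exists_subset_card_eq (A ⧸ Ideal.span {z}) (Nat.card F ^ n + 1)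
  choose g hg using fun i : s => Ideal.Quotient.mk_surjective (i : A ⧸ Ideal.span {z})
  have := card_le {A} (z := (z : k)) (by simp) htr hn (I := s) (fun i => (g i : k))
    (by intro i B hB; rw [Set.mem_singleton_iff.1 hB]; exact (g i).2) (by
      rintro i j ⟨w, hw, hw2⟩
      have hwA : w ∈ A := hw A rfl
      apply Subtype.ext
      rw [← hg i, ← hg j, Ideal.Quotient.mk_eq_mk_iff_sub_mem, Ideal.mem_span_singleton]
      exact ⟨⟨w, hwA⟩, Subtype.ext hw2⟩)
  rw [Nat.card_eq_fintype_card, Fintype.card_coe, hs] at this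
  omega

/-- **Places are discrete with finite residue field.** -/
theorem isDVR [Finite F] (hfin : ∀ x : k, Transcendental F x → ∃ n, Rel F x n)
    (A : ValuationSubring k) (hA : A ≠ ⊤) :
    IsDiscreteValuationRing A ∧ Finite (IsLocalRing.ResidueField A) := by
  classical
  have hnf : ¬ IsField A := by
    intro hF
    apply hA
    rw [eq_top_iff]
    intro x _
    rcases A.mem_or_inv_mem x with h | h
    · exact h
    · by_cases hx : x = 0
      · rw [hx]; exact A.zero_mem
      · obtain ⟨y, hy⟩ := hF.mul_inv_cancel (a := (⟨x⁻¹, h⟩ : A)) (by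
          intro h'
          exact hx (inv_eq_zero.1 (congrArg Subtype.val h')))
        have h2 : x⁻¹ * (y : k) = 1 := congrArg Subtype.val hy
        have h3 : x = y := by
          field_simp at h2
          exact h2.symm
        rw [h3]
        exact y.2
  have hbot : IsLocalRing.maximalIdeal A ≠ ⊥ := by
    intro h
    exact hnf (IsLocalRing.isField_iff_maximalIdeal_eq.2 h)
  have hN : IsNoetherianRing A := by
    rw [isNoetherianRing_iff_ideal_fg]
    intro I
    by_cases hI : I = ⊥
    · rw [hI]; exact Submodule.fg_bot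
    obtain ⟨z, hzI, hz0⟩ := Submodule.exists_mem_ne_zero_of_ne_bot hI
    have hfq := finite_quot hfin A z hz0
    refine Submodule.fg_of_fg_map_of_fg_inf_ker (Submodule.mkQ (Ideal.span {z})) ?_ ?_
    · have h1 : Finite (Submodule.map (Submodule.mkQ (Ideal.span {z})) I) := Subtype.finite
      exact Module.Finite.iff_fg.1 inferInstance
    · rw [Submodule.ker_mkQ, inf_eq_right.2 ((Ideal.span_singleton_le_iff_mem I).2 hzI)]
      exact Submodule.fg_span_singleton z
  have hval : ValuationRing A := inferInstance
  have hdvr : IsDiscreteValuationRing A :=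
    ((IsDiscreteValuationRing.TFAE A hnf).out 0 1).2 hval
  refine ⟨hdvr, ?_⟩
  obtain ⟨z, hz, hz0⟩ := Submodule.exists_mem_ne_zero_of_ne_bot hbot
  have hfq := finite_quot hfin A z hz0
  have hle : Ideal.span {z} ≤ IsLocalRing.maximalIdeal A :=
    (Ideal.span_singleton_le_iff_mem _).2 hz
  exact Finite.of_surjective (Ideal.Quotient.factor hle) (Ideal.Quotient.factor_surjective hle)

end PCl
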