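import Pool.Agent.Helper25.PC.DegZeros
import Pool.Agent.Helper25.PC.Pic

/-! Row D2 of MP_bd895b_L in terms of `Place.ord` (Helper25). -/

set_option autoImplicit false

namespace ZC

universe u

open PCl

variable {K E : Type u} [Field K] [Field E] [Algebra K E]

theorem Place.isOrd' (w : Place K E) (hdvr : IsDiscreteValuationRing w.A) :
    IsOrd w.A w.ord := by
  obtain ⟨o, ho⟩ := exists_isOrd w.A
  refine ⟨fun x y hx hy => ?_, fun x hx => ?_, ?_⟩
  · rw [w.ord_eq_of_isOrd ho hdvr hx, w.ord_eq_of_isOrd ho hdvr hy, w.ord_eq_of_isOrd ho hdvr (mul_ne_zero hx hy),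
      ho.mul x y hx hy]
  · rw [w.ord_eq_of_isOrd ho hdvr hx]
    exact ho.nonneg x hx
  · obtain ⟨x, hx, hx1⟩ := ho.surj
    exact ⟨x, hx, by rw [w.ord_eq_of_isOrd ho hdvr hx, hx1]⟩

/-- **The zeros of `z`.** -/
theorem zeros_le_deg (hdvr : ∀ w : Place K E, IsDiscreteValuationRing w.A)
    (T : Finset (Place K E)) {z : E} (hz0 : z ≠ 0) (htr : Transcendental K z) {n : ℕ}
    (hR : Rel K z n) : ∑ w ∈ T, (w.ord z).toNat * w.deg ≤ n := by
  classical
  have h1 := sum_ord_mul_deg_le (T.filter (fun w => z ∈ w.A)) (fun w _ => hdvr w) Place.ord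
    (fun w _ => w.isOrd' (hdvr w)) hz0 htr (fun w hw => (Finset.mem_filter.1 hw).2) hR
  rw [Finset.sum_filter] at h1
  refine le_trans (le_of_eq ?_) h1
  refine Finset.sum_congr rfl fun w _ => ?_
  by_cases hzA : z ∈ w.A
  · rw [if_pos hzA]
  · rw [if_neg hzA]
    have : ¬ 0 ≤ w.ord z := fun h => hzA (((w.isOrd' (hdvr w)).nonneg z hz0).1 h)
    rw [Int.toNat_of_nonpos (by omega), zero_mul]

end ZC
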